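import Mathlib

/-!
Definitions for the stable boundedness problem of structured quaternion differential systems.
The coefficients `A_0, ..., A_ℓ` are given as a sequence `A : ℕ → Matrix`; only the values
`A k` with `k ≤ ℓ` are ever used.
-/

namespace Pool.Agent.W_MP_87a692_al

open scoped Quaternion Matrix

/-- `φ` is a nonstandard involution of the real quaternions: real linear, anti-multiplicative,
involutive and different from the quaternion conjugation. -/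
structure NonstandardInvolution (φ : ℍ[ℝ] → ℍ[ℝ]) : Prop where
  map_add : ∀ x y, φ (x + y) = φ x + φ y
  map_smul : ∀ (r : ℝ) (x : ℍ[ℝ]), φ (r • x) = r • φ x
  map_mul : ∀ x y, φ (x * y) = φ y * φ x
  map_map : ∀ x, φ (φ x) = x
  ne_conj : ∃ x, φ x ≠ star x

/-- `X_φ`: the transpose of `X` with `φ` applied entrywise. -/
def phiT {m k : Type*} (φ : ℍ[ℝ] → ℍ[ℝ]) (X : Matrix m k ℍ[ℝ]) : Matrix k m ℍ[ℝ] :=
  Xᵀ.map φ

variable {n : ℕ}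

/-- Hypothesis (B): `A_ℓ` is invertible, `A_k` is `φ`-hermitian for even `k ≤ ℓ` and
`φ`-skewhermitian for odd `k ≤ ℓ`. -/
def HypB (φ : ℍ[ℝ] → ℍ[ℝ]) (ℓ : ℕ) (A : ℕ → Matrix (Fin n) (Fin n) ℍ[ℝ]) : Prop :=
  IsUnit (A ℓ) ∧
    ∀ k ≤ ℓ, (Even k → phiT φ (A k) = A k) ∧ (Odd k → phiT φ (A k) = -A k)

/-- `x` is a solution of `∑_{k ≤ ℓ} A_k x^{(k)}(t) = 0`, `t ∈ ℝ`: a `C^ℓ` map. -/
def IsSolution (ℓ : ℕ) (A : ℕ → Matrix (Fin n) (Fin n) ℍ[ℝ]) (x : ℝ → Fin n → ℍ[ℝ]) : Prop :=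
  ContDiff ℝ ℓ x ∧ ∀ t : ℝ, ∑ k ∈ Finset.range (ℓ + 1), A k *ᵥ iteratedDeriv k x t = 0

/-- Each solution is bounded on `ℝ`. -/
def BoundedSystem (ℓ : ℕ) (A : ℕ → Matrix (Fin n) (Fin n) ℍ[ℝ]) : Prop :=
  ∀ x : ℝ → Fin n → ℍ[ℝ], IsSolution ℓ A x → ∃ M : ℝ, ∀ t : ℝ, ‖x t‖ ≤ M

/-- Every system obeying (B) whose coefficients are close enough to the given ones is bounded. -/
def StablyBounded (φ : ℍ[ℝ] → ℍ[ℝ]) (ℓ : ℕ) (A : ℕ → Matrix (Fin n) (Fin n) ℍ[ℝ]) : Prop :=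
  ∃ ε : ℝ, 0 < ε ∧ ∀ A' : ℕ → Matrix (Fin n) (Fin n) ℍ[ℝ], HypB φ ℓ A' →
    (∀ k ≤ ℓ, ∀ a b, ‖A' k a b - A k a b‖ < ε) → BoundedSystem ℓ A'

/-- The block companion matrix `C` (block indices in `Fin ℓ`, i.e. counted from `0`). -/
noncomputable def companion (ℓ : ℕ) (A : ℕ → Matrix (Fin n) (Fin n) ℍ[ℝ]) :
    Matrix (Fin ℓ × Fin n) (Fin ℓ × Fin n) ℍ[ℝ] := fun p q =>
  if p.1.val + 1 < ℓ then
    (if q.1.val = p.1.val + 1 then (1 : Matrix (Fin n) (Fin n) ℍ[ℝ]) p.2 q.2 else 0)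
  else -((Ring.inverse (A ℓ) * A q.1.val) p.2 q.2)

/-- The matrix `G`: with block indices counted from `0`, its `(i, j)` block is
`(-1)^i A_{i+j+1}` if `i + j + 1 ≤ ℓ` and `0` otherwise. -/
noncomputable def formG (ℓ : ℕ) (A : ℕ → Matrix (Fin n) (Fin n) ℍ[ℝ]) :
    Matrix (Fin ℓ × Fin n) (Fin ℓ × Fin n) ℍ[ℝ] := fun p q =>
  if p.1.val + q.1.val + 1 ≤ ℓ then (-1) ^ p.1.val * A (p.1.val + q.1.val + 1) p.2 q.2 else 0

/-- `α` is a (right) eigenvalue of `C`. -/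
def IsEigenvalue {N : Type*} [Fintype N] (C : Matrix N N ℍ[ℝ]) (α : ℍ[ℝ]) : Prop :=
  ∃ x : N → ℍ[ℝ], x ≠ 0 ∧ C *ᵥ x = fun p => x p * α

/-- `p(C)` with `p(t) = t - α` if `α` is real and `p(t) = t^2 - 2 Re(α) t + |α|^2` otherwise. -/
noncomputable def rootPoly {N : Type*} [Fintype N] [DecidableEq N] (C : Matrix N N ℍ[ℝ])
    (α : ℍ[ℝ]) : Matrix N N ℍ[ℝ] :=
  open Classical in
  if α = (α.re : ℍ[ℝ]) then C - α.re • (1 : Matrix N N ℍ[ℝ])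
  else C ^ 2 - (2 * α.re) • C + (‖α‖ ^ 2) • (1 : Matrix N N ℍ[ℝ])

/-- The kernel of `p(C)^d`. -/
def rootSubspace {N : Type*} [Fintype N] [DecidableEq N] (d : ℕ) (C : Matrix N N ℍ[ℝ])
    (α : ℍ[ℝ]) : Set (N → ℍ[ℝ]) :=
  {x | (rootPoly C α ^ d) *ᵥ x = 0}

/-- `M` is `(G, φ)`-definite: `x_φ G x` vanishes for no nonzero `x ∈ M`. -/
def PhiDefinite {N : Type*} [Fintype N] (φ : ℍ[ℝ] → ℍ[ℝ]) (G : Matrix N N ℍ[ℝ])
    (M : Set (N → ℍ[ℝ])) : Prop :=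
  ∀ x ∈ M, x ≠ 0 → (fun p => φ (x p)) ⬝ᵥ (G *ᵥ x) ≠ 0

end Pool.Agent.W_MP_87a692_al
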