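import Mathlib
import Pool.Agent.W_MP_87a692_al.Defs

/-!
Structure of nonstandard involutions.
-/

namespace Pool.Agent.W_MP_87a692_al

open scoped Quaternion Matrix

variable {φ : ℍ[ℝ] → ℍ[ℝ]}

/-- Pure quaternions: the anticommutator is real. -/
lemma pure_anticomm {p q : ℍ[ℝ]} (hp : p.re = 0) (hq : q.re = 0) (hpq : (p * q).re = 0) :
    p * q = -(q * p) := by
  have h := hpq
  simp only [Quaternion.re_mul] at h
  ext
  · simp only [Quaternion.re_mul, Quaternion.re_neg, hp, hq] at h ⊢
    linarith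
  · simp [hp, hq]; ring
  · simp [hp, hq]; ring
  · simp [hp, hq]; ring

lemma re_mul_comm' (p q : ℍ[ℝ]) : (p * q).re = (q * p).re := by
  simp only [Quaternion.re_mul]; ring

namespace NonstandardInvolution

variable (h : NonstandardInvolution φ)
include h

lemma map_zero : φ 0 = 0 := by
  have := h.map_smul 0 0
  simpa using this

lemma map_neg (x : ℍ[ℝ]) : φ (-x) = -φ x := by
  have := h.map_smul (-1) x
  simpa using this

lemma map_sub (x y : ℍ[ℝ]) : φ (x - y) = φ x - φ y := by
  rw [sub_eq_add_neg, h.map_add, h.map_neg, ← sub_eq_add_neg]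

lemma map_one : φ 1 = 1 := by
  have h1 : φ (φ 1 * 1) = φ 1 * φ (φ 1) := h.map_mul _ _
  rw [mul_one, h.map_map, mul_one] at h1
  exact h1.symm

lemma map_real (r : ℝ) : φ (r : ℍ[ℝ]) = r := by
  have := h.map_smul r 1
  rw [h.map_one] at this
  simpa [← Quaternion.coe_mul_eq_smul] using this

/-- `φ` preserves pure quaternions. -/
lemma map_pure {p : ℍ[ℝ]} (hp : p.re = 0) : (φ p).re = 0 := by
  have hsq : p * p = ((-(Quaternion.normSq p) : ℝ) : ℍ[ℝ]) := by
    have h1 : star p = -p := Quaternion.star_eq_neg.mpr hp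
    have h2 := Quaternion.self_mul_star p
    rw [h1, mul_neg] at h2
    have h3 : p * p = -((Quaternion.normSq p : ℝ) : ℍ[ℝ]) := by rw [← h2, neg_neg]
    rw [h3]; simp
  have hφ : φ p * φ p = ((-(Quaternion.normSq p) : ℝ) : ℍ[ℝ]) := by
    rw [← h.map_mul, hsq, h.map_real]
  by_contra hne
  have hi := congrArg (fun q : ℍ[ℝ] => q.imI) hφ
  have hj := congrArg (fun q : ℍ[ℝ] => q.imJ) hφ
  have hk := congrArg (fun q : ℍ[ℝ] => q.imK) hφ
  have hr := congrArg (fun q : ℍ[ℝ] => q.re) hφ
  simp only [Quaternion.imI_mul, Quaternion.imJ_mul, Quaternion.imK_mul, Quaternion.re_mul,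
    Quaternion.imI_coe, Quaternion.imJ_coe, Quaternion.imK_coe, Quaternion.re_coe] at hi hj hk hr
  have hi' : (φ p).imI = 0 := by
    have : (φ p).re * (φ p).imI = 0 := by linarith
    exact (mul_eq_zero.mp this).resolve_left hne
  have hj' : (φ p).imJ = 0 := by
    have : (φ p).re * (φ p).imJ = 0 := by linarith
    exact (mul_eq_zero.mp this).resolve_left hne
  have hk' : (φ p).imK = 0 := by
    have : (φ p).re * (φ p).imK = 0 := by linarith
    exact (mul_eq_zero.mp this).resolve_left hne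
  rw [hi', hj', hk'] at hr
  have hn : 0 ≤ Quaternion.normSq p := Quaternion.normSq_nonneg
  have h0 : (φ p).re * (φ p).re ≤ 0 := by linarith
  have : (φ p).re = 0 := by nlinarith [mul_self_nonneg (φ p).re]
  exact hne this

lemma map_star (x : ℍ[ℝ]) : φ (star x) = star (φ x) := by
  have hx : x = (x.re : ℍ[ℝ]) + x.im := (Quaternion.re_add_im x).symm
  have him : (φ x.im).re = 0 := h.map_pure (Quaternion.re_im x)
  have h1 : star x = (x.re : ℍ[ℝ]) + -x.im := by
    conv_lhs => rw [hx]
    rw [star_add]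
    congr 1
    · simp
    · exact Quaternion.star_eq_neg.mpr (Quaternion.re_im x)
  rw [h1, h.map_add, h.map_neg, h.map_real]
  conv_rhs => rw [hx]
  rw [h.map_add, h.map_real, star_add]
  congr 1
  · simp
  · exact (Quaternion.star_eq_neg.mpr him).symm

/-- The key structural fact: `φ x = β⁻¹ x̄ β` for a pure unit quaternion `β`. -/
lemma exists_beta : ∃ β : ℍ[ℝ], β * β = -1 ∧ star β = -β ∧ ∀ x, β * φ x = star x * β := by
  -- the automorphism ψ
  set ψ : ℍ[ℝ] → ℍ[ℝ] := fun x => φ (star x) with hψ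
  have ψadd : ∀ x y, ψ (x + y) = ψ x + ψ y := fun x y => by
    simp only [hψ, star_add, h.map_add]
  have ψsub : ∀ x y, ψ (x - y) = ψ x - ψ y := fun x y => by
    simp only [hψ, star_sub, h.map_sub]
  have ψneg : ∀ x, ψ (-x) = -ψ x := fun x => by
    simp only [hψ, star_neg, h.map_neg]
  have ψmul : ∀ x y, ψ (x * y) = ψ x * ψ y := fun x y => by
    simp only [hψ, star_mul, h.map_mul]
  have ψψ : ∀ x, ψ (ψ x) = x := fun x => by
    simp only [hψ]
    rw [← h.map_star, h.map_map, star_star]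
  have ψreal : ∀ r : ℝ, ψ (r : ℍ[ℝ]) = r := fun r => by
    simp only [hψ]
    rw [Quaternion.star_coe, h.map_real]
  have ψsmul : ∀ (r : ℝ) x, ψ (r • x) = r • ψ x := fun r x => by
    simp only [hψ]
    rw [Quaternion.star_smul, h.map_smul]
  have ψstar : ∀ x, ψ (star x) = star (ψ x) := fun x => by
    simp only [hψ]
    rw [h.map_star]
  -- antifixed elements are pure
  have anti_pure : ∀ x, ψ x = -x → x.re = 0 := by
    intro x hx
    have h1 : x + star x = ((2 * x.re : ℝ) : ℍ[ℝ]) := by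
      rw [Quaternion.self_add_star]; push_cast; rfl
    have h2 : ψ (x + star x) = -(x + star x) := by
      rw [ψadd, ψstar, hx, star_neg, neg_add]
    rw [h1, ψreal] at h2
    have h3 := congrArg (fun q : ℍ[ℝ] => q.re) h2
    simp only [Quaternion.re_coe, Quaternion.re_neg] at h3
    linarith
  -- antifixed a ≠ 0
  obtain ⟨a, ha0, ha⟩ : ∃ a, a ≠ 0 ∧ ψ a = -a := by
    obtain ⟨x, hx⟩ := h.ne_conj
    refine ⟨star x - ψ (star x), ?_, ?_⟩
    · intro h0
      apply hx
      have : ψ (star x) = star x := (sub_eq_zero.mp h0).symm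
      simpa [hψ] using this
    · rw [ψsub, ψψ, neg_sub]
  have hare : a.re = 0 := anti_pure a ha
  -- fixed pure b ≠ 0
  obtain ⟨b, hb0, hbre, hb⟩ : ∃ b, b ≠ 0 ∧ b.re = 0 ∧ ψ b = b := by
    by_contra hcon
    push Not at hcon
    have hpure : ∀ p : ℍ[ℝ], p.re = 0 → ψ p = -p := by
      intro p hp
      by_contra hne
      have h1 : p + ψ p ≠ 0 := fun h0 => hne (eq_neg_of_add_eq_zero_right h0)
      have h2 : (p + ψ p).re = 0 := by
        have : (ψ p).re = 0 := by
          simp only [hψ]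
          apply h.map_pure
          simp [hp]
        rw [Quaternion.re_add, hp, this, add_zero]
      have h3 : ψ (p + ψ p) = p + ψ p := by rw [ψadd, ψψ, add_comm]
      exact hcon _ h1 h2 h3
    obtain ⟨i, hidef⟩ : ∃ i : ℍ[ℝ], i.re = 0 ∧ i.imI = 1 ∧ i.imJ = 0 ∧ i.imK = 0 :=
      ⟨⟨0, 1, 0, 0⟩, rfl, rfl, rfl, rfl⟩
    obtain ⟨j, hjdef⟩ : ∃ j : ℍ[ℝ], j.re = 0 ∧ j.imI = 0 ∧ j.imJ = 1 ∧ j.imK = 0 :=
      ⟨⟨0, 0, 1, 0⟩, rfl, rfl, rfl, rfl⟩
    have hi := hpure i hidef.1
    have hj := hpure j hjdef.1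
    have hij : (i * j).re = 0 ∧ (i * j).imK = 1 := by
      constructor
      · rw [Quaternion.re_mul, hidef.1, hidef.2.1, hidef.2.2.1, hidef.2.2.2,
          hjdef.1, hjdef.2.1, hjdef.2.2.1, hjdef.2.2.2]; norm_num
      · rw [Quaternion.imK_mul, hidef.1, hidef.2.1, hidef.2.2.1, hidef.2.2.2,
          hjdef.1, hjdef.2.1, hjdef.2.2.1, hjdef.2.2.2]; norm_num
    have hk := hpure (i * j) hij.1
    rw [ψmul, hi, hj, neg_mul_neg] at hk
    have h4 := congrArg (fun q : ℍ[ℝ] => q.imK) hk
    simp only [Quaternion.imK_neg, hij.2] at h4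
    norm_num at h4
  -- antifixed elements anticommute with fixed pure elements
  have anticomm : ∀ x y, ψ x = -x → ψ y = y → y.re = 0 → x * y = -(y * x) := by
    intro x y hx hy hyre
    apply pure_anticomm (anti_pure x hx) hyre
    apply anti_pure
    rw [ψmul, hx, hy, neg_mul]
  -- fixed pure elements commute with b
  have commb : ∀ p, ψ p = p → p.re = 0 → p * b = b * p := by
    intro p hp hpre
    set m := p * b with hm
    have ψm : ψ m = m := by rw [hm, ψmul, hp, hb]
    set m' := m.im with hm'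
    have hmdec : m = (m.re : ℍ[ℝ]) + m' := (Quaternion.re_add_im m).symm
    have ψm' : ψ m' = m' := by
      have : m' = m - (m.re : ℍ[ℝ]) := by rw [eq_sub_iff_add_eq, add_comm]; exact hmdec.symm
      rw [this, ψsub, ψm, ψreal]
    have hm're : m'.re = 0 := Quaternion.re_im m
    have e1 : a * m' = -(m' * a) := anticomm a m' ha ψm' hm're
    have e2 : a * m = m * a := by
      rw [hm]
      have h1 := anticomm a p ha hp hpre
      have h2 := anticomm a b ha hb hbre
      calc a * (p * b) = (a * p) * b := by rw [mul_assoc]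
        _ = -(p * (a * b)) := by rw [h1, neg_mul, mul_assoc]
        _ = p * b * a := by rw [h2, mul_neg, neg_neg, mul_assoc]
    have e3 : a * m' = m' * a := by
      have : a * m' = a * m - a * (m.re : ℍ[ℝ]) := by
        rw [← mul_sub]; congr 1; rw [eq_sub_iff_add_eq, add_comm]; exact hmdec.symm
      rw [this, e2]
      have h5 : a * (m.re : ℍ[ℝ]) = (m.re : ℍ[ℝ]) * a := (Quaternion.coe_commutes m.re a).symm
      rw [h5, ← sub_mul]
      congr 1
      rw [sub_eq_iff_eq_add, add_comm]; exact hmdec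
    have e4 : m' * a = 0 := by
      have h6 : m' * a = -(m' * a) := e3.symm.trans e1
      have h7 : m' * a + m' * a = 0 := by
        nth_rewrite 2 [h6]
        exact add_neg_cancel _
      have h8 : (2 : ℝ) • (m' * a) = 0 := by rw [two_smul]; exact h7
      exact (smul_eq_zero.mp h8).resolve_left two_ne_zero
    have e5 : m' = 0 := (mul_eq_zero.mp e4).resolve_right ha0
    have e6 : m = (m.re : ℍ[ℝ]) := by rw [hmdec, e5, add_zero]; simp
    -- p = m * b⁻¹
    have e7 : p = (m.re : ℍ[ℝ]) * b⁻¹ := by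
      rw [← e6, hm, mul_assoc, mul_inv_cancel₀ hb0, mul_one]
    rw [hm, e7, mul_assoc, inv_mul_cancel₀ hb0, mul_one, ← mul_assoc,
      ← Quaternion.coe_commutes, mul_assoc, mul_inv_cancel₀ hb0, mul_one]
  -- main identity for b
  have main : ∀ x, b * ψ x = x * b := by
    intro x
    set xp := x + ψ x with hxp
    set xm := x - ψ x with hxm
    have ψxp : ψ xp = xp := by rw [hxp, ψadd, ψψ, add_comm]
    have ψxm : ψ xm = -xm := by rw [hxm, ψsub, ψψ, neg_sub]
    have c1 : xp * b = b * xp := by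
      have hdec : xp = (xp.re : ℍ[ℝ]) + xp.im := (Quaternion.re_add_im xp).symm
      have ψim : ψ xp.im = xp.im := by
        have : xp.im = xp - (xp.re : ℍ[ℝ]) := by
          rw [eq_sub_iff_add_eq, add_comm]; exact hdec.symm
        rw [this, ψsub, ψxp, ψreal]
      have := commb xp.im ψim (Quaternion.re_im xp)
      rw [hdec, add_mul, mul_add, this]
      simp only [Quaternion.re_add, Quaternion.re_coe, Quaternion.re_im, add_zero,
        Quaternion.coe_commutes]
    have c2 : xm * b = -(b * xm) := anticomm xm b ψxm hb hbre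
    have e1 : (2 : ℝ) • x = xp + xm := by rw [hxp, hxm, two_smul]; abel
    have e2 : (2 : ℝ) • ψ x = xp - xm := by rw [hxp, hxm, two_smul]; abel
    have e3 : (2 : ℝ) • (b * ψ x) = (2 : ℝ) • (x * b) := by
      rw [← mul_smul_comm, e2, ← smul_mul_assoc, e1, mul_sub, add_mul, c1, c2]
      abel
    exact smul_right_injective _ (two_ne_zero : (2 : ℝ) ≠ 0) e3
  -- normalise
  have hbn : ‖b‖ ≠ 0 := norm_ne_zero_iff.mpr hb0
  refine ⟨‖b‖⁻¹ • b, ?_, ?_, ?_⟩
  · have hsq : b * b = -((‖b‖ * ‖b‖ : ℝ) : ℍ[ℝ]) := by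
      have h1 : star b = -b := Quaternion.star_eq_neg.mpr hbre
      have h2 := Quaternion.self_mul_star b
      rw [h1, mul_neg, Quaternion.normSq_eq_norm_mul_self] at h2
      rw [← h2, neg_neg]
    rw [smul_mul_smul_comm, hsq, ← Quaternion.coe_mul_eq_smul, mul_neg, ← Quaternion.coe_mul]
    have : ‖b‖⁻¹ * ‖b‖⁻¹ * (‖b‖ * ‖b‖) = 1 := by field_simp
    rw [this]; simp
  · rw [Quaternion.star_smul, Quaternion.star_eq_neg.mpr hbre, smul_neg]
  · intro x
    have := main (star x)
    have h2 : ψ (star x) = φ x := by simp only [hψ, star_star]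
    rw [h2] at this
    rw [smul_mul_assoc, this, mul_smul_comm]

end NonstandardInvolution

end Pool.Agent.W_MP_87a692_al
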