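import Mathlib
import Pool.Agent.W_MP_87a692_al.Defs

/-!
Exponential solutions of a quaternion differential system.
-/

namespace Pool.Agent.W_MP_87a692_al

open scoped Quaternion Matrix
open NormedSpace

variable {n : ℕ}

/-- `t ↦ (y + t v) e^{tα}` -/
noncomputable def fsol (y v : Fin n → ℍ[ℝ]) (α : ℍ[ℝ]) (t : ℝ) : Fin n → ℍ[ℝ] :=
  fun a => (y a + t • v a) * exp (t • α)

lemma hasDerivAt_fsol (y v : Fin n → ℍ[ℝ]) (α : ℍ[ℝ]) (t : ℝ) :
    HasDerivAt (fsol y v α) (fsol (fun a => y a * α + v a) (fun a => v a * α) α t) t := by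
  rw [hasDerivAt_pi]
  intro a
  have h1 : HasDerivAt (fun t : ℝ => exp (t • α)) (exp (t • α) * α) t :=
    hasDerivAt_exp_smul_const α t
  have h2 : HasDerivAt (fun t : ℝ => y a + t • v a) (v a) t := by
    have := ((hasDerivAt_id t).smul_const (v a)).const_add (y a)
    simpa using this
  have h3 := h2.mul h1
  have hcomm : exp (t • α) * α = α * exp (t • α) := by
    have : Commute (exp (t • α)) α := ((Commute.refl α).smul_left t).exp_left
    exact this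
  have heq : v a * exp (t • α) + (y a + t • v a) * (exp (t • α) * α) =
      fsol (fun a => y a * α + v a) (fun a => v a * α) α t a := by
    unfold fsol
    rw [hcomm]
    simp only [add_mul, mul_assoc, smul_mul_assoc]
    abel
  rw [← heq]
  exact h3

lemma iteratedDeriv_fsol (y v : Fin n → ℍ[ℝ]) (α : ℍ[ℝ]) (k : ℕ) :
    iteratedDeriv k (fsol y v α) =
      fsol (fun a => y a * α ^ k + (k : ℝ) • (v a * α ^ (k - 1))) (fun a => v a * α ^ k) α := by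
  induction k with
  | zero => simp
  | succ k ih =>
    rw [iteratedDeriv_succ, ih]
    funext t
    rw [(hasDerivAt_fsol _ _ α t).deriv]
    congr 1
    · funext a
      rcases Nat.eq_zero_or_pos k with rfl | hk
      · simp
      · obtain ⟨m, rfl⟩ : ∃ m, k = m + 1 := ⟨k - 1, by omega⟩
        simp only [Nat.add_sub_cancel, add_mul, smul_mul_assoc, mul_assoc, ← pow_succ]
        push_cast
        simp only [add_smul, one_smul]
        abel
    · funext a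
      rw [mul_assoc, ← pow_succ]

lemma contDiff_fsol (y v : Fin n → ℍ[ℝ]) (α : ℍ[ℝ]) (ℓ : ℕ) : ContDiff ℝ ℓ (fsol y v α) := by
  apply contDiff_of_differentiable_iteratedDeriv (n := (ℓ : ℕ∞))
  intro m _
  rw [iteratedDeriv_fsol]
  intro t
  exact (hasDerivAt_fsol _ _ α t).differentiableAt

lemma mulVec_fsol (M : Matrix (Fin n) (Fin n) ℍ[ℝ]) (y v : Fin n → ℍ[ℝ]) (α : ℍ[ℝ]) (t : ℝ) :
    M *ᵥ fsol y v α t = fsol (M *ᵥ y) (M *ᵥ v) α t := by
  funext a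
  simp only [fsol, Matrix.mulVec, dotProduct]
  rw [Finset.smul_sum, ← Finset.sum_add_distrib, Finset.sum_mul]
  apply Finset.sum_congr rfl
  intro b _
  rw [← mul_assoc, mul_add, mul_smul_comm]

lemma sum_fsol (s : Finset ℕ) (Y V : ℕ → Fin n → ℍ[ℝ]) (α : ℍ[ℝ]) (t : ℝ) :
    ∑ k ∈ s, fsol (Y k) (V k) α t = fsol (∑ k ∈ s, Y k) (∑ k ∈ s, V k) α t := by
  funext a
  simp only [fsol, Finset.sum_apply]
  rw [Finset.smul_sum, ← Finset.sum_add_distrib, Finset.sum_mul]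

lemma isSolution_fsol {ℓ : ℕ} {A : ℕ → Matrix (Fin n) (Fin n) ℍ[ℝ]} {y v : Fin n → ℍ[ℝ]}
    {α : ℍ[ℝ]}
    (h1 : ∑ k ∈ Finset.range (ℓ + 1), A k *ᵥ (fun a => v a * α ^ k) = 0)
    (h2 : ∑ k ∈ Finset.range (ℓ + 1),
      A k *ᵥ (fun a => y a * α ^ k + (k : ℝ) • (v a * α ^ (k - 1))) = 0) :
    IsSolution ℓ A (fsol y v α) := by
  refine ⟨contDiff_fsol y v α ℓ, fun t => ?_⟩
  simp only [iteratedDeriv_fsol, mulVec_fsol]
  rw [sum_fsol, h1, h2]
  funext a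
  simp [fsol]

lemma norm_fsol_apply {y v : Fin n → ℍ[ℝ]} {α : ℍ[ℝ]} (t : ℝ) (a : Fin n) :
    ‖fsol y v α t a‖ = ‖y a + t • v a‖ * ‖(exp (t * α.re) : ℝ)‖ := by
  unfold fsol
  rw [norm_mul, Quaternion.norm_exp]
  simp

/-- If the system is bounded, there is no Jordan chain of length two on the imaginary axis. -/
lemma no_chain {ℓ : ℕ} {A : ℕ → Matrix (Fin n) (Fin n) ℍ[ℝ]} (hb : BoundedSystem ℓ A)
    {y v : Fin n → ℍ[ℝ]} {α : ℍ[ℝ]} (hα : α.re = 0)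
    (h1 : ∑ k ∈ Finset.range (ℓ + 1), A k *ᵥ (fun a => v a * α ^ k) = 0)
    (h2 : ∑ k ∈ Finset.range (ℓ + 1),
      A k *ᵥ (fun a => y a * α ^ k + (k : ℝ) • (v a * α ^ (k - 1))) = 0) : v = 0 := by
  obtain ⟨M, hM⟩ := hb _ (isSolution_fsol h1 h2)
  by_contra hv
  obtain ⟨a, ha⟩ : ∃ a, v a ≠ 0 := by
    by_contra hcon
    push Not at hcon
    exact hv (funext hcon)
  have hva : 0 < ‖v a‖ := norm_pos_iff.mpr ha
  set t := (M + ‖y a‖ + 1) / ‖v a‖ with ht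
  have h3 : ‖fsol y v α t a‖ ≤ M := le_trans (norm_le_pi_norm _ a) (hM t)
  rw [norm_fsol_apply, hα, mul_zero] at h3
  simp only [exp_zero, norm_one, mul_one] at h3
  have h4 : ‖t • v a‖ ≤ ‖y a + t • v a‖ + ‖y a‖ := by
    calc ‖t • v a‖ = ‖(y a + t • v a) - y a‖ := by congr 1; abel
      _ ≤ _ := norm_sub_le _ _
  have h5 : M + ‖y a‖ + 1 ≤ ‖t • v a‖ := by
    rw [norm_smul]
    calc M + ‖y a‖ + 1 = t * ‖v a‖ := by rw [ht]; field_simp
      _ ≤ ‖t‖ * ‖v a‖ := mul_le_mul_of_nonneg_right (Real.le_norm_self t) hva.le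
  linarith

/-- If the system is bounded, all eigenvalues lie on the imaginary axis. -/
lemma re_eq_zero {ℓ : ℕ} {A : ℕ → Matrix (Fin n) (Fin n) ℍ[ℝ]} (hb : BoundedSystem ℓ A)
    {y : Fin n → ℍ[ℝ]} {α : ℍ[ℝ]} (hy : y ≠ 0)
    (h1 : ∑ k ∈ Finset.range (ℓ + 1), A k *ᵥ (fun a => y a * α ^ k) = 0) : α.re = 0 := by
  have hz : ∑ k ∈ Finset.range (ℓ + 1), A k *ᵥ (fun a => (0 : Fin n → ℍ[ℝ]) a * α ^ k) = 0 := by
    apply Finset.sum_eq_zero
    intro k _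
    have : (fun a => (0 : Fin n → ℍ[ℝ]) a * α ^ k) = 0 := by funext a; simp
    rw [this, Matrix.mulVec_zero]
  have h2 : ∑ k ∈ Finset.range (ℓ + 1),
      A k *ᵥ (fun a => y a * α ^ k + (k : ℝ) • ((0 : Fin n → ℍ[ℝ]) a * α ^ (k - 1))) = 0 := by
    refine Eq.trans (Finset.sum_congr rfl ?_) h1
    intro k _
    congr 1
    funext a
    simp
  obtain ⟨M, hM⟩ := hb _ (isSolution_fsol hz h2)
  by_contra hne
  obtain ⟨a, ha⟩ : ∃ a, y a ≠ 0 := by
    by_contra hcon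
    push Not at hcon
    exact hy (funext hcon)
  have hya : 0 < ‖y a‖ := norm_pos_iff.mpr ha
  have key : ∀ s : ℝ, ‖y a‖ * Real.exp s ≤ M := by
    intro s
    have h3 : ‖fsol y 0 α (s / α.re) a‖ ≤ M := le_trans (norm_le_pi_norm _ a) (hM _)
    rw [norm_fsol_apply, div_mul_cancel₀ _ hne] at h3
    simpa [← Real.exp_eq_exp_ℝ, abs_of_pos (Real.exp_pos s)] using h3
  have h4 := key (M / ‖y a‖)
  have h5 : M / ‖y a‖ + 1 ≤ Real.exp (M / ‖y a‖) := Real.add_one_le_exp _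
  have h6 : ‖y a‖ * (M / ‖y a‖ + 1) ≤ ‖y a‖ * Real.exp (M / ‖y a‖) :=
    mul_le_mul_of_nonneg_left h5 hya.le
  have h7 : ‖y a‖ * (M / ‖y a‖ + 1) = M + ‖y a‖ := by field_simp
  linarith

end Pool.Agent.W_MP_87a692_al
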