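import Mathlib
import Pool.Agent.W_MP_87a692_al.Involution
import Pool.Agent.W_MP_87a692_al.Solutions

/-!
Structured perturbations.
-/

namespace Pool.Agent.W_MP_87a692_al

open scoped Quaternion Matrix
open Filter Topology

variable {n : ℕ}

/-! ### Invertibility is stable -/

lemma isUnit_add_smul {R : Type*} [NormedRing R] [NormedAlgebra ℝ R] [CompleteSpace R]
    {M : R} (N : R) (hM : IsUnit M) : ∀ᶠ c : ℝ in 𝓝 0, IsUnit (M + c • N) := by
  have hcont : Continuous (fun c : ℝ => M + c • N) := by fun_prop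
  have hopen : IsOpen {x : R | IsUnit x} := Units.isOpen
  have := hcont.continuousAt (x := 0)
  have hmem : {x : R | IsUnit x} ∈ 𝓝 (M + (0 : ℝ) • N) := by
    apply hopen.mem_nhds
    simpa using hM
  exact this hmem

attribute [local instance] Matrix.linftyOpNormedRing Matrix.linftyOpNormedAlgebra in
lemma matrix_isUnit_add_smul {M : Matrix (Fin n) (Fin n) ℍ[ℝ]} (N : Matrix (Fin n) (Fin n) ℍ[ℝ])
    (hM : IsUnit M) : ∀ᶠ c : ℝ in 𝓝 0, IsUnit (M + c • N) := by
  have : FiniteDimensional ℝ (Matrix (Fin n) (Fin n) ℍ[ℝ]) := inferInstance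
  have : CompleteSpace (Matrix (Fin n) (Fin n) ℍ[ℝ]) :=
    FiniteDimensional.complete ℝ (Matrix (Fin n) (Fin n) ℍ[ℝ])
  exact isUnit_add_smul N hM

/-- A structured direction of perturbation. -/
def Structured (φ : ℍ[ℝ] → ℍ[ℝ]) (Y : ℕ → Matrix (Fin n) (Fin n) ℍ[ℝ]) : Prop :=
  ∀ k, (Even k → phiT φ (Y k) = Y k) ∧ (Odd k → phiT φ (Y k) = -Y k)

lemma exists_perturb {φ : ℍ[ℝ] → ℍ[ℝ]} (hφ : NonstandardInvolution φ) {ℓ : ℕ}
    {A Y : ℕ → Matrix (Fin n) (Fin n) ℍ[ℝ]} (hA : HypB φ ℓ A) (hs : StablyBounded φ ℓ A)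
    (hY : Structured φ Y) :
    ∃ ε : ℝ, 0 < ε ∧ BoundedSystem ℓ (fun k => A k + ε • Y k) := by
  obtain ⟨δ, hδ, hs⟩ := hs
  have h1 : ∀ᶠ ε : ℝ in 𝓝[>] 0, IsUnit (A ℓ + ε • Y ℓ) :=
    (matrix_isUnit_add_smul (Y ℓ) hA.1).filter_mono nhdsWithin_le_nhds
  have h2 : ∀ᶠ ε : ℝ in 𝓝[>] 0, ∀ k ∈ Finset.range (ℓ + 1), ∀ a b, ‖ε • Y k a b‖ < δ := by
    have h3 : ∀ᶠ ε : ℝ in 𝓝 0, ∀ k ∈ Finset.range (ℓ + 1), ∀ a b, ‖ε • Y k a b‖ < δ := by
      rw [Filter.eventually_all_finset]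
      intro k _
      rw [Filter.eventually_all]
      intro a
      rw [Filter.eventually_all]
      intro b
      have hc : Continuous (fun ε : ℝ => ‖ε • Y k a b‖) := by fun_prop
      have h0 : ‖(0 : ℝ) • Y k a b‖ < δ := by simpa using hδ
      exact hc.continuousAt.eventually_lt continuousAt_const h0
    exact h3.filter_mono nhdsWithin_le_nhds
  obtain ⟨ε, ⟨hu, hcl⟩, hε⟩ := ((h1.and h2).and self_mem_nhdsWithin).exists
  refine ⟨ε, hε, hs _ ⟨hu, ?_⟩ ?_⟩
  · intro k hk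
    constructor
    · intro hev
      have e1 := (hA.2 k hk).1 hev
      have e2 := (hY k).1 hev
      apply Matrix.ext
      intro a b
      have f1 := congrFun (congrFun e1 a) b
      have f2 := congrFun (congrFun e2 a) b
      simp only [phiT, Matrix.map_apply, Matrix.transpose_apply, Matrix.add_apply,
        Matrix.smul_apply] at f1 f2 ⊢
      rw [hφ.map_add, hφ.map_smul, f1, f2]
    · intro hodd
      have e1 := (hA.2 k hk).2 hodd
      have e2 := (hY k).2 hodd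
      apply Matrix.ext
      intro a b
      have f1 := congrFun (congrFun e1 a) b
      have f2 := congrFun (congrFun e2 a) b
      simp only [phiT, Matrix.map_apply, Matrix.transpose_apply, Matrix.add_apply,
        Matrix.smul_apply, Matrix.neg_apply] at f1 f2 ⊢
      rw [hφ.map_add, hφ.map_smul, f1, f2, smul_neg, neg_add]
  · intro k hk a b
    have := hcl k (Finset.mem_range.mpr (by omega)) a b
    simpa using this

lemma bounded_of_stably {φ : ℍ[ℝ] → ℍ[ℝ]} {ℓ : ℕ}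
    {A : ℕ → Matrix (Fin n) (Fin n) ℍ[ℝ]} (hA : HypB φ ℓ A) (hs : StablyBounded φ ℓ A) :
    BoundedSystem ℓ A := by
  obtain ⟨δ, hδ, hs⟩ := hs
  exact hs A hA (fun k _ a b => by simpa using hδ)

/-! ### Translation between `φ` and the standard conjugation -/

lemma phi_of_star {φ : ℍ[ℝ] → ℍ[ℝ]} {β : ℍ[ℝ]} (hβ : β * β = -1) (hβs : star β = -β)
    (hβφ : ∀ x, β * φ x = star x * β) {d e : ℍ[ℝ]} {σ : ℍ[ℝ]} (hσ : σ = 1 ∨ σ = -1)
    (h : star d = -(σ * e)) : φ (-(β * d)) = σ * -(β * e) := by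
  have h1 := hβφ (-(β * d))
  rw [star_neg, star_mul, hβs, h] at h1
  have h2 : φ (-(β * d)) = -(β * (β * φ (-(β * d)))) := by
    rw [← mul_assoc, hβ]; simp
  rw [h2, h1]
  have h3 : (-(-(σ * e) * -β)) * β = σ * e := by
    have : (-(-(σ * e) * -β)) * β = -(σ * e * (β * β)) := by noncomm_ring
    rw [this, hβ]; simp
  rw [h3]
  rcases hσ with rfl | rfl <;> noncomm_ring

lemma star_of_phi {φ : ℍ[ℝ] → ℍ[ℝ]} {β : ℍ[ℝ]} (hβs : star β = -β)
    (hβφ : ∀ x, β * φ x = star x * β) {x y : ℍ[ℝ]} {σ : ℍ[ℝ]} (hσ : σ = 1 ∨ σ = -1)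
    (h : φ x = σ * y) : star (β * x) = -(σ * (β * y)) := by
  rw [star_mul, hβs, mul_neg, ← hβφ, h]
  rcases hσ with rfl | rfl <;> noncomm_ring

/-! ### Range of a skew-adjoint operator -/

lemma re_sum {ι : Type*} (s : Finset ι) (f : ι → ℍ[ℝ]) : (∑ i ∈ s, f i).re = ∑ i ∈ s, (f i).re := by
  classical
  induction s using Finset.induction_on with
  | empty => simp
  | insert i s hi ih => rw [Finset.sum_insert hi, Finset.sum_insert hi, Quaternion.re_add, ih]

/-- real inner product on `ℍ^n` -/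
noncomputable def rip (u w : Fin n → ℍ[ℝ]) : ℝ := (∑ a, star (u a) * w a).re

lemma rip_comm (u w : Fin n → ℍ[ℝ]) : rip u w = rip w u := by
  unfold rip
  have : (∑ a, star (w a) * u a) = star (∑ a, star (u a) * w a) := by
    rw [star_sum]
    apply Finset.sum_congr rfl
    intro a _
    rw [star_mul, star_star]
  rw [this, Quaternion.re_star]

lemma exists_ker_of_not_mem_range (T : (Fin n → ℍ[ℝ]) →ₗ[ℝ] (Fin n → ℍ[ℝ]))
    (hT : ∀ u w, rip (T u) w = -rip u (T w)) (z : Fin n → ℍ[ℝ]) (hz : ¬ ∃ y, T y = z) :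
    ∃ w, T w = 0 ∧ rip w z ≠ 0 := by
  let E := PiLp 2 (fun _ : Fin n => ℍ[ℝ])
  let e : E ≃ₗ[ℝ] (Fin n → ℍ[ℝ]) := WithLp.linearEquiv 2 ℝ (Fin n → ℍ[ℝ])
  have hinner : ∀ x y : E, inner ℝ x y = rip (e x) (e y) := by
    intro x y
    rw [PiLp.inner_apply, rip_comm]
    unfold rip
    rw [re_sum]
    apply Finset.sum_congr rfl
    intro a _
    rw [re_mul_comm', Quaternion.inner_def]
    rfl
  let T' : E →ₗ[ℝ] E := e.symm.toLinearMap ∘ₗ T ∘ₗ e.toLinearMap
  set K : Submodule ℝ E := LinearMap.range T' with hK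
  have hzK : e.symm z ∉ K := by
    rintro ⟨y, hy⟩
    apply hz
    refine ⟨e y, ?_⟩
    have := congrArg e hy
    simpa [T'] using this
  rw [← Submodule.orthogonal_orthogonal K, Submodule.mem_orthogonal] at hzK
  push Not at hzK
  obtain ⟨w, hw, hwz⟩ := hzK
  refine ⟨e w, ?_, ?_⟩
  · rw [Submodule.mem_orthogonal] at hw
    have h1 : ∀ u : E, rip (e u) (T (e w)) = 0 := by
      intro u
      have h2 := hw (T' u) ⟨u, rfl⟩
      rw [hinner] at h2
      have h3 : e (T' u) = T (e u) := by simp [T']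
      rw [h3, hT] at h2
      linarith
    have h4 := h1 (e.symm (T (e w)))
    rw [LinearEquiv.apply_symm_apply] at h4
    have h5 : inner ℝ (e.symm (T (e w))) (e.symm (T (e w))) = (0 : ℝ) := by
      rw [hinner, LinearEquiv.apply_symm_apply]; exact h4
    have h6 := inner_self_eq_zero.mp h5
    simpa using congrArg e h6
  · rw [hinner, LinearEquiv.apply_symm_apply] at hwz
    exact hwz

end Pool.Agent.W_MP_87a692_al
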