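import Mathlib
import Pool.Agent.W_MP_87a692_al.Perturb

/-!
A neutral eigenvector contradicts stable boundedness.
-/

namespace Pool.Agent.W_MP_87a692_al

open scoped Quaternion Matrix
open Filter Topology

variable {n : ℕ}

/-- `L(u) = ∑ A_k u α^k` -/
noncomputable def LA (ℓ : ℕ) (A : ℕ → Matrix (Fin n) (Fin n) ℍ[ℝ]) (α : ℍ[ℝ])
    (u : Fin n → ℍ[ℝ]) : Fin n → ℍ[ℝ] :=
  ∑ k ∈ Finset.range (ℓ + 1), A k *ᵥ (fun a => u a * α ^ k)

/-- `L'(v) = ∑ k A_k v α^(k-1)` -/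
noncomputable def dLA (ℓ : ℕ) (A : ℕ → Matrix (Fin n) (Fin n) ℍ[ℝ]) (α : ℍ[ℝ])
    (v : Fin n → ℍ[ℝ]) : Fin n → ℍ[ℝ] :=
  ∑ k ∈ Finset.range (ℓ + 1), A k *ᵥ (fun a => (k : ℝ) • (v a * α ^ (k - 1)))

lemma chain_eq (ℓ : ℕ) (A : ℕ → Matrix (Fin n) (Fin n) ℍ[ℝ]) (α : ℍ[ℝ])
    (y v : Fin n → ℍ[ℝ]) :
    ∑ k ∈ Finset.range (ℓ + 1),
      A k *ᵥ (fun a => y a * α ^ k + (k : ℝ) • (v a * α ^ (k - 1))) =
      LA ℓ A α y + dLA ℓ A α v := by
  unfold LA dLA
  rw [← Finset.sum_add_distrib]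
  apply Finset.sum_congr rfl
  intro k _
  rw [← Matrix.mulVec_add]
  rfl

lemma LA_add_coeff (ℓ : ℕ) (A Y : ℕ → Matrix (Fin n) (Fin n) ℍ[ℝ]) (ε : ℝ) (α : ℍ[ℝ])
    (u : Fin n → ℍ[ℝ]) :
    LA ℓ (fun k => A k + ε • Y k) α u = LA ℓ A α u + ε • LA ℓ Y α u := by
  unfold LA
  rw [Finset.smul_sum, ← Finset.sum_add_distrib]
  apply Finset.sum_congr rfl
  intro k _
  rw [Matrix.add_mulVec, Matrix.smul_mulVec]

lemma dLA_add_coeff (ℓ : ℕ) (A Y : ℕ → Matrix (Fin n) (Fin n) ℍ[ℝ]) (ε : ℝ) (α : ℍ[ℝ])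
    (u : Fin n → ℍ[ℝ]) :
    dLA ℓ (fun k => A k + ε • Y k) α u = dLA ℓ A α u + ε • dLA ℓ Y α u := by
  unfold dLA
  rw [Finset.smul_sum, ← Finset.sum_add_distrib]
  apply Finset.sum_congr rfl
  intro k _
  rw [Matrix.add_mulVec, Matrix.smul_mulVec]

lemma LA_add (ℓ : ℕ) (A : ℕ → Matrix (Fin n) (Fin n) ℍ[ℝ]) (α : ℍ[ℝ]) (u w : Fin n → ℍ[ℝ]) :
    LA ℓ A α (u + w) = LA ℓ A α u + LA ℓ A α w := by
  unfold LA
  rw [← Finset.sum_add_distrib]
  apply Finset.sum_congr rfl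
  intro k _
  rw [← Matrix.mulVec_add]
  congr 1
  funext a
  simp [add_mul]

lemma LA_smul (ℓ : ℕ) (A : ℕ → Matrix (Fin n) (Fin n) ℍ[ℝ]) (α : ℍ[ℝ]) (r : ℝ)
    (u : Fin n → ℍ[ℝ]) : LA ℓ A α (r • u) = r • LA ℓ A α u := by
  unfold LA
  rw [Finset.smul_sum]
  apply Finset.sum_congr rfl
  intro k _
  rw [← Matrix.mulVec_smul]
  congr 1
  funext a
  simp

/-- right multiplication by an element commuting with `α` -/
lemma LA_mul_right (ℓ : ℕ) (A : ℕ → Matrix (Fin n) (Fin n) ℍ[ℝ]) {α c : ℍ[ℝ]}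
    (hc : c * α = α * c) (u : Fin n → ℍ[ℝ]) (a : Fin n) :
    LA ℓ A α (fun a => u a * c) a = LA ℓ A α u a * c := by
  unfold LA
  simp only [Finset.sum_apply, Matrix.mulVec, dotProduct]
  rw [Finset.sum_mul]
  apply Finset.sum_congr rfl
  intro k _
  rw [Finset.sum_mul]
  apply Finset.sum_congr rfl
  intro b _
  have : c * α ^ k = α ^ k * c := (Commute.pow_right hc k)
  rw [mul_assoc, this]
  simp only [mul_assoc]

/-- the rank one matrix `z q z^*` -/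
noncomputable def R1 (z : Fin n → ℍ[ℝ]) (q : ℍ[ℝ]) : Matrix (Fin n) (Fin n) ℍ[ℝ] :=
  fun a b => z a * q * star (z b)

lemma R1_mulVec (z : Fin n → ℍ[ℝ]) (q : ℍ[ℝ]) (u : Fin n → ℍ[ℝ]) (a : Fin n) :
    (R1 z q *ᵥ u) a = z a * q * ∑ b, star (z b) * u b := by
  simp only [R1, Matrix.mulVec, dotProduct]
  rw [Finset.mul_sum]
  apply Finset.sum_congr rfl
  intro b _
  rw [mul_assoc]

lemma star_R1 (z : Fin n → ℍ[ℝ]) (q : ℍ[ℝ]) (a b : Fin n) :
    star (R1 z q b a) = z a * star q * star (z b) := by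
  simp only [R1, star_mul, star_star, mul_assoc]

/-- the perturbation direction -/
noncomputable def DD (z : Fin n → ℍ[ℝ]) (ι : ℍ[ℝ]) (c0 c1 c2 : ℝ) :
    ℕ → Matrix (Fin n) (Fin n) ℍ[ℝ]
  | 0 => c0 • R1 z ι
  | 1 => c1 • R1 z 1
  | 2 => c2 • R1 z ι
  | _ => 0

/-- multiplied by `-β` -/
noncomputable def YY (β : ℍ[ℝ]) (z : Fin n → ℍ[ℝ]) (ι : ℍ[ℝ]) (c0 c1 c2 : ℝ) (k : ℕ) :
    Matrix (Fin n) (Fin n) ℍ[ℝ] := fun a b => -(β * DD z ι c0 c1 c2 k a b)

lemma structured_YY {φ : ℍ[ℝ] → ℍ[ℝ]} {β : ℍ[ℝ]} (hφ : NonstandardInvolution φ)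
    (hβ : β * β = -1) (hβs : star β = -β)
    (hβφ : ∀ x, β * φ x = star x * β) (z : Fin n → ℍ[ℝ]) {ι : ℍ[ℝ]} (hι : star ι = -ι)
    (c0 c1 c2 : ℝ) : Structured φ (YY β z ι c0 c1 c2) := by
  have hz : ∀ a b : Fin n, ∀ c : ℝ, star ((c • R1 z ι) b a) = -(1 * ((c • R1 z ι) a b)) := by
    intro a b c
    rw [Matrix.smul_apply, Quaternion.star_smul, star_R1, hι, Matrix.smul_apply]
    simp [R1]
  have h1 : ∀ a b : Fin n, ∀ c : ℝ, star ((c • R1 z 1) b a) = -(-1 * ((c • R1 z 1) a b)) := by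
    intro a b c
    rw [Matrix.smul_apply, Quaternion.star_smul, star_R1, star_one, Matrix.smul_apply]
    simp [R1]
  intro k
  match k with
  | 0 =>
    refine ⟨fun _ => ?_, fun h => absurd h (by decide)⟩
    apply Matrix.ext
    intro a b
    simp only [phiT, Matrix.map_apply, Matrix.transpose_apply, YY, DD]
    rw [phi_of_star hβ hβs hβφ (Or.inl rfl) (hz a b c0), one_mul]
  | 1 =>
    refine ⟨fun h => absurd h (by decide), fun _ => ?_⟩
    apply Matrix.ext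
    intro a b
    simp only [phiT, Matrix.map_apply, Matrix.transpose_apply, YY, DD, Matrix.neg_apply]
    rw [phi_of_star hβ hβs hβφ (Or.inr rfl) (h1 a b c1)]
    simp
  | 2 =>
    refine ⟨fun _ => ?_, fun h => absurd h (by decide)⟩
    apply Matrix.ext
    intro a b
    simp only [phiT, Matrix.map_apply, Matrix.transpose_apply, YY, DD]
    rw [phi_of_star hβ hβs hβφ (Or.inl rfl) (hz a b c2), one_mul]
  | (k + 3) =>
    constructor
    · intro _
      apply Matrix.ext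
      intro a b
      simp only [phiT, Matrix.map_apply, Matrix.transpose_apply, YY, DD, Matrix.zero_apply,
        mul_zero, neg_zero, hφ.map_zero]
    · intro _
      apply Matrix.ext
      intro a b
      simp only [phiT, Matrix.map_apply, Matrix.transpose_apply, YY, DD, Matrix.zero_apply,
        mul_zero, neg_zero, hφ.map_zero, Matrix.neg_apply]

lemma YY_mulVec (β : ℍ[ℝ]) (z : Fin n → ℍ[ℝ]) (ι : ℍ[ℝ]) (c0 c1 c2 : ℝ) (k : ℕ)
    (u : Fin n → ℍ[ℝ]) (a : Fin n) :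
    (YY β z ι c0 c1 c2 k *ᵥ u) a = -(β * (DD z ι c0 c1 c2 k *ᵥ u) a) := by
  simp only [YY, Matrix.mulVec, dotProduct]
  rw [Finset.mul_sum, ← Finset.sum_neg_distrib]
  apply Finset.sum_congr rfl
  intro b _
  rw [neg_mul, mul_assoc]

lemma sum_range_three {M : Type*} [AddCommMonoid M] {ℓ : ℕ} (hℓ : 2 ≤ ℓ) (f : ℕ → M)
    (hf : ∀ k, 3 ≤ k → f k = 0) : ∑ k ∈ Finset.range (ℓ + 1), f k = f 0 + f 1 + f 2 := by
  have hsub : Finset.range 3 ⊆ Finset.range (ℓ + 1) := by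
    intro k hk
    rw [Finset.mem_range] at hk ⊢
    omega
  rw [← Finset.sum_subset hsub]
  · simp [Finset.sum_range_succ]
  · intro k _ hk
    rw [Finset.mem_range] at hk
    exact hf k (by omega)

lemma LA_YY {ℓ : ℕ} (hℓ : 2 ≤ ℓ) (β : ℍ[ℝ]) (z : Fin n → ℍ[ℝ]) {ι : ℍ[ℝ]} (hι2 : ι * ι = -1)
    {ω : ℝ} (hω : 0 < ω) (u : Fin n → ℍ[ℝ]) (a : Fin n) :
    LA ℓ (YY β z ι (-(1 / 4)) (-(1 / (2 * ω))) (1 / (4 * ω ^ 2))) (ω • ι) u a =
      (1 / 2 : ℝ) • (β * (z a * (ι * (∑ b, star (z b) * u b) + (∑ b, star (z b) * u b) * ι))) := by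
  unfold LA
  rw [sum_range_three hℓ]
  · simp only [Pi.add_apply, YY_mulVec, DD, Matrix.smul_mulVec, Pi.smul_apply, R1_mulVec, pow_zero,
      mul_one, pow_one]
    set s := ∑ b, star (z b) * u b with hs
    have e1 : ∑ b, star (z b) * (u b * (ω • ι)) = ω • (s * ι) := by
      rw [hs, Finset.sum_mul, Finset.smul_sum]
      apply Finset.sum_congr rfl
      intro b _
      rw [mul_smul_comm, mul_smul_comm, mul_assoc]
    have e2 : ∑ b, star (z b) * (u b * (ω • ι) ^ 2) = -(ω ^ 2 • s) := by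
      rw [hs, Finset.smul_sum, ← Finset.sum_neg_distrib]
      apply Finset.sum_congr rfl
      intro b _
      rw [sq, smul_mul_smul_comm, hι2, mul_smul_comm, mul_smul_comm]
      simp [sq]
    rw [e1, e2]
    simp only [mul_smul_comm, mul_neg, smul_neg, neg_neg, smul_smul, mul_add, smul_add]
    have h1 : (-(1 / (2 * ω)) * ω) = -(1 / 2) := by field_simp
    have h2 : (1 / (4 * ω ^ 2) * ω ^ 2) = 1 / 4 := by field_simp
    rw [h1, h2]
    simp only [← mul_assoc]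
    module
  · intro k hk
    obtain ⟨j, rfl⟩ : ∃ j, k = j + 3 := ⟨k - 3, by omega⟩
    funext b
    rw [YY_mulVec]
    simp [DD]

lemma dLA_YY {ℓ : ℕ} (hℓ : 2 ≤ ℓ) (β : ℍ[ℝ]) (z : Fin n → ℍ[ℝ]) {ι : ℍ[ℝ]} (hι2 : ι * ι = -1)
    {ω : ℝ} (hω : 0 < ω) (u : Fin n → ℍ[ℝ])
    (hq : (∑ b, star (z b) * u b) * ι = -(ι * ∑ b, star (z b) * u b)) :
    dLA ℓ (YY β z ι (-(1 / 4)) (-(1 / (2 * ω))) (1 / (4 * ω ^ 2))) (ω • ι) u = 0 := by
  funext a
  unfold dLA
  rw [sum_range_three hℓ]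
  · simp only [Pi.add_apply, YY_mulVec, DD, Matrix.smul_mulVec, Pi.smul_apply, R1_mulVec]
    set s := ∑ b, star (z b) * u b with hs
    have e0 : ∑ b, star (z b) * (((0 : ℕ) : ℝ) • (u b * (ω • ι) ^ (0 - 1))) = 0 := by simp
    have e1 : ∑ b, star (z b) * (((1 : ℕ) : ℝ) • (u b * (ω • ι) ^ (1 - 1))) = s := by
      simp [hs]
    have e2 : ∑ b, star (z b) * (((2 : ℕ) : ℝ) • (u b * (ω • ι) ^ (2 - 1))) =
        (2 * ω) • (s * ι) := by
      rw [hs, Finset.sum_mul, Finset.smul_sum]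
      apply Finset.sum_congr rfl
      intro b _
      simp only [Nat.add_one_sub_one, pow_one, mul_smul_comm, smul_smul, Nat.cast_ofNat, mul_assoc]
    rw [e0, e1, e2, hq]
    have hss : ι * (ι * s) = -s := by rw [← mul_assoc, hι2]; simp
    have h3 : z a * ι * (-(ι * s)) = z a * s := by
      rw [mul_neg, mul_assoc, hss, mul_neg, neg_neg]
    simp only [mul_smul_comm, mul_one, mul_zero, smul_zero, neg_zero, zero_add, h3, smul_smul]
    have h2 : (1 / (4 * ω ^ 2) * (2 * ω)) = 1 / (2 * ω) := by field_simp; norm_num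
    rw [h2]
    simp
  · intro k hk
    obtain ⟨j, rfl⟩ : ∃ j, k = j + 3 := ⟨k - 3, by omega⟩
    funext b
    rw [YY_mulVec]
    simp [DD]

/-- `β L` as a real linear map -/
noncomputable def TL (ℓ : ℕ) (A : ℕ → Matrix (Fin n) (Fin n) ℍ[ℝ]) (α β : ℍ[ℝ]) :
    (Fin n → ℍ[ℝ]) →ₗ[ℝ] (Fin n → ℍ[ℝ]) where
  toFun u := fun a => β * LA ℓ A α u a
  map_add' u w := by
    funext a
    rw [LA_add]
    simp [mul_add]
  map_smul' r u := by
    funext a
    rw [LA_smul]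
    simp

lemma skew_term {B : Matrix (Fin n) (Fin n) ℍ[ℝ]} {σ γ : ℍ[ℝ]} (hσ : σ = 1 ∨ σ = -1)
    (hB : ∀ a b, star (B b a) = -(σ * B a b)) (hγ : star γ = σ * γ) (u w : Fin n → ℍ[ℝ]) :
    rip (B *ᵥ (fun a => u a * γ)) w = -rip u (B *ᵥ (fun a => w a * γ)) := by
  unfold rip
  simp only [Matrix.mulVec, dotProduct, star_sum, Finset.sum_mul, Finset.mul_sum]
  rw [Finset.sum_comm, re_sum, re_sum, ← Finset.sum_neg_distrib]
  apply Finset.sum_congr rfl
  intro b _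
  rw [re_sum, re_sum, ← Finset.sum_neg_distrib]
  apply Finset.sum_congr rfl
  intro a _
  rw [star_mul, star_mul, hB, hγ]
  have h1 : (σ * γ * star (u b) * -(σ * B b a) * w a).re =
      -(γ * (star (u b) * B b a * w a)).re := by
    rw [← Quaternion.re_neg]
    congr 1
    rcases hσ with rfl | rfl <;> noncomm_ring
  rw [h1, re_mul_comm']
  congr 2
  simp only [mul_assoc]

lemma rip_sum_left {ι : Type*} (s : Finset ι) (f : ι → Fin n → ℍ[ℝ]) (w : Fin n → ℍ[ℝ]) :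
    rip (∑ i ∈ s, f i) w = ∑ i ∈ s, rip (f i) w := by
  unfold rip
  rw [← re_sum, Finset.sum_comm]
  congr 1
  apply Finset.sum_congr rfl
  intro a _
  rw [Finset.sum_apply, star_sum, Finset.sum_mul]

lemma rip_sum_right {ι : Type*} (s : Finset ι) (f : ι → Fin n → ℍ[ℝ]) (w : Fin n → ℍ[ℝ]) :
    rip w (∑ i ∈ s, f i) = ∑ i ∈ s, rip w (f i) := by
  rw [rip_comm, rip_sum_left]
  exact Finset.sum_congr rfl (fun i _ => rip_comm _ _)

/-- entries of `β A_k` -/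
lemma star_betaA {φ : ℍ[ℝ] → ℍ[ℝ]} {β : ℍ[ℝ]} (hβs : star β = -β)
    (hβφ : ∀ x, β * φ x = star x * β) {ℓ : ℕ} {A : ℕ → Matrix (Fin n) (Fin n) ℍ[ℝ]}
    (hA : HypB φ ℓ A) {k : ℕ} (hk : k ≤ ℓ) (a b : Fin n) :
    star (β * A k b a) = -((-1) ^ k * (β * A k a b)) := by
  rcases Nat.even_or_odd k with hev | hodd
  · have h1 := congrFun (congrFun ((hA.2 k hk).1 hev) a) b
    simp only [phiT, Matrix.map_apply, Matrix.transpose_apply] at h1
    rw [hev.neg_one_pow]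
    exact star_of_phi hβs hβφ (Or.inl rfl) (by rw [h1, one_mul])
  · have h1 := congrFun (congrFun ((hA.2 k hk).2 hodd) a) b
    simp only [phiT, Matrix.map_apply, Matrix.transpose_apply, Matrix.neg_apply] at h1
    rw [hodd.neg_one_pow]
    exact star_of_phi hβs hβφ (Or.inr rfl) (by rw [h1, neg_one_mul])

lemma star_pow_pure {α : ℍ[ℝ]} (hα : star α = -α) (k : ℕ) : star (α ^ k) = (-1) ^ k * α ^ k := by
  rw [star_pow, hα, neg_pow]

lemma TL_skew {φ : ℍ[ℝ] → ℍ[ℝ]} {β : ℍ[ℝ]} (hβs : star β = -β)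
    (hβφ : ∀ x, β * φ x = star x * β) {ℓ : ℕ} {A : ℕ → Matrix (Fin n) (Fin n) ℍ[ℝ]}
    (hA : HypB φ ℓ A) {α : ℍ[ℝ]} (hα : star α = -α) (u w : Fin n → ℍ[ℝ]) :
    rip (TL ℓ A α β u) w = -rip u (TL ℓ A α β w) := by
  have hT : ∀ u, TL ℓ A α β u = ∑ k ∈ Finset.range (ℓ + 1),
      (fun a b => β * A k a b : Matrix (Fin n) (Fin n) ℍ[ℝ]) *ᵥ (fun a => u a * α ^ k) := by
    intro u
    funext a
    simp only [TL, LA, LinearMap.coe_mk, AddHom.coe_mk, Finset.sum_apply, Finset.mul_sum,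
      Matrix.mulVec, dotProduct, mul_assoc]
  rw [hT, hT, rip_sum_left, rip_sum_right, ← Finset.sum_neg_distrib]
  apply Finset.sum_congr rfl
  intro k hk
  rw [Finset.mem_range] at hk
  apply skew_term (σ := (-1) ^ k)
  · exact neg_one_pow_eq_or _ k
  · intro a b
    exact star_betaA hβs hβφ hA (by omega) a b
  · exact star_pow_pure hα k

/-- existence of the companion vector `w` -/
lemma exists_w {φ : ℍ[ℝ] → ℍ[ℝ]} {β : ℍ[ℝ]} (hβ : β * β = -1) (hβs : star β = -β)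
    (hβφ : ∀ x, β * φ x = star x * β) {ℓ : ℕ} {A : ℕ → Matrix (Fin n) (Fin n) ℍ[ℝ]}
    (hA : HypB φ ℓ A) (hb : BoundedSystem ℓ A) {α : ℍ[ℝ]} (hα : star α = -α)
    {v : Fin n → ℍ[ℝ]} (hv : v ≠ 0) (hLv : LA ℓ A α v = 0) :
    ∃ w, LA ℓ A α w = 0 ∧ rip w (fun a => β * dLA ℓ A α v a) ≠ 0 := by
  have hαre : α.re = 0 := Quaternion.star_eq_neg.mp hα
  have hnot : ¬ ∃ y, TL ℓ A α β y = fun a => β * dLA ℓ A α v a := by
    rintro ⟨y, hy⟩
    apply hv
    apply no_chain hb hαre hLv (y := -y)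
    rw [chain_eq]
    have h1 : LA ℓ A α y = dLA ℓ A α v := by
      funext a
      have := congrFun hy a
      simp only [TL, LinearMap.coe_mk, AddHom.coe_mk] at this
      have h2 : -(β * (β * LA ℓ A α y a)) = -(β * (β * dLA ℓ A α v a)) := by rw [this]
      rw [← mul_assoc, ← mul_assoc, hβ] at h2
      simpa using h2
    have h2 : LA ℓ A α (-y) = -LA ℓ A α y := by
      have := LA_smul ℓ A α (-1) y
      simpa using this
    rw [h2, h1, neg_add_cancel]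
  obtain ⟨w, hw, hwz⟩ := exists_ker_of_not_mem_range (TL ℓ A α β) (TL_skew hβs hβφ hA hα) _ hnot
  refine ⟨w, ?_, hwz⟩
  funext a
  have := congrFun hw a
  simp only [TL, LinearMap.coe_mk, AddHom.coe_mk, Pi.zero_apply] at this
  have hβ0 : β ≠ 0 := by
    rintro rfl
    simp at hβ
  simpa [hβ0] using this

/-- Key lemma, nonreal case. -/
lemma no_neutral {φ : ℍ[ℝ] → ℍ[ℝ]} (hφ : NonstandardInvolution φ) {β : ℍ[ℝ]}
    (hβ : β * β = -1) (hβs : star β = -β)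
    (hβφ : ∀ x, β * φ x = star x * β) {ℓ : ℕ} (hℓ : 2 ≤ ℓ)
    {A : ℕ → Matrix (Fin n) (Fin n) ℍ[ℝ]}
    (hA : HypB φ ℓ A) (hs : StablyBounded φ ℓ A) {ι : ℍ[ℝ]} (hι2 : ι * ι = -1)
    (hι : star ι = -ι) {ω : ℝ} (hω : 0 < ω) {v : Fin n → ℍ[ℝ]}
    (hLv : LA ℓ A (ω • ι) v = 0)
    (hre : (∑ a, star (v a) * (β * dLA ℓ A (ω • ι) v a)).re = 0)
    (him : ((∑ a, star (v a) * (β * dLA ℓ A (ω • ι) v a)) * ι).re = 0) : v = 0 := by
  by_contra hv
  have hb := bounded_of_stably hA hs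
  have hα : star (ω • ι) = -(ω • ι) := by rw [Quaternion.star_smul, hι, smul_neg]
  have hαre : (ω • ι).re = 0 := Quaternion.star_eq_neg.mp hα
  obtain ⟨w, hLw, hw⟩ := exists_w hβ hβs hβφ hA hb hα hv hLv
  set z : Fin n → ℍ[ℝ] := fun a => β * dLA ℓ A (ω • ι) v a with hz
  -- q = z^* v anticommutes with ι
  set q := ∑ b, star (z b) * v b with hq
  have hqstar : star q = ∑ a, star (v a) * z a := by
    rw [hq, star_sum]
    apply Finset.sum_congr rfl
    intro a _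
    rw [star_mul, star_star]
  have hqre : q.re = 0 := by
    have : (star q).re = 0 := by rw [hqstar]; exact hre
    simpa using this
  have hqs : star q = -q := Quaternion.star_eq_neg.mpr hqre
  have hqι : q * ι = -(ι * q) := by
    apply pure_anticomm hqre (Quaternion.star_eq_neg.mp hι)
    have h1 : (star q * ι).re = 0 := by rw [hqstar]; exact him
    rw [hqs, neg_mul, Quaternion.re_neg] at h1
    linarith
  -- s = z^* w
  set s := ∑ b, star (z b) * w b with hsdef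
  have hsre : s.re ≠ 0 := by
    intro h0
    apply hw
    rw [rip_comm]
    exact h0
  set κ := ι * s + s * ι with hκ
  have hκι : ι * κ = κ * ι := by
    rw [hκ, mul_add, add_mul, ← mul_assoc, hι2, mul_assoc s ι ι, hι2, ← mul_assoc]
    rw [neg_one_mul, mul_neg_one, add_comm]
  have hκ0 : κ ≠ 0 := by
    intro h0
    apply hsre
    have h1 : ι * s = -(s * ι) := eq_neg_of_add_eq_zero_left h0
    have h2 : (ι * (s * ι)).re = s.re := by
      rw [← mul_assoc, h1, neg_mul, mul_assoc, hι2]; simp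
    have h3 : (ι * (s * ι)).re = -s.re := by
      rw [re_mul_comm', mul_assoc, hι2]; simp
    linarith
  obtain ⟨ε, hε, hbd⟩ := exists_perturb hφ hA hs
    (structured_YY hφ hβ hβs hβφ z hι (-(1 / 4)) (-(1 / (2 * ω))) (1 / (4 * ω ^ 2)))
  set c := (2 / ε) • κ⁻¹ with hc
  have hcι : c * (ω • ι) = (ω • ι) * c := by
    have h1 : κ⁻¹ * ι = ι * κ⁻¹ := by
      have : Commute κ ι := hκι.symm
      exact this.inv_left₀
    rw [hc, smul_mul_smul_comm, h1, smul_mul_smul_comm, mul_comm (2 / ε) ω]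
  apply hv
  have hββ : ∀ x : ℍ[ℝ], β * (β * x) = -x := by
    intro x; rw [← mul_assoc, hβ]; simp
  refine no_chain hbd hαre (y := fun a => w a * c) ?_ ?_
  · change LA ℓ _ (ω • ι) v = 0
    rw [LA_add_coeff, hLv]
    funext a
    rw [Pi.add_apply, Pi.smul_apply, LA_YY hℓ β z hι2 hω]
    change 0 + ε • (1 / 2 : ℝ) • (β * (z a * (ι * q + q * ι))) = 0
    rw [hqι]; simp
  · rw [chain_eq, LA_add_coeff, dLA_add_coeff, dLA_YY hℓ β z hι2 hω v hqι]
    funext a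
    rw [Pi.add_apply, Pi.add_apply, Pi.add_apply, Pi.smul_apply, LA_YY hℓ β z hι2 hω,
      LA_mul_right ℓ A hcι, hLw]
    have hsc : ∑ b, star (z b) * (w b * c) = s * c := by
      rw [hsdef, Finset.sum_mul]
      apply Finset.sum_congr rfl
      intro b _
      rw [mul_assoc]
    rw [hsc]
    have hcι' : c * ι = ι * c := by
      have h1 : κ⁻¹ * ι = ι * κ⁻¹ := by
        have : Commute κ ι := hκι.symm
        exact this.inv_left₀
      rw [hc, smul_mul_assoc, h1, mul_smul_comm]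
    have hk : ι * (s * c) + s * c * ι = (2 / ε) • (1 : ℍ[ℝ]) := by
      have : ι * (s * c) + s * c * ι = κ * c := by
        rw [mul_assoc s c ι, hcι', hκ, add_mul]
        simp only [mul_assoc]
      rw [this, hc, mul_smul_comm, mul_inv_cancel₀ hκ0]
    rw [hk]
    have hza : β * (z a * (2 / ε) • (1 : ℍ[ℝ])) = -((2 / ε) • dLA ℓ A (ω • ι) v a) := by
      rw [mul_smul_comm, mul_one, mul_smul_comm, hz]
      simp only
      rw [hββ, smul_neg]
    rw [hza]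
    simp only [Pi.zero_apply, zero_mul, zero_add, Pi.smul_apply, smul_zero, add_zero, smul_neg,
      smul_smul]
    have : ε * (1 / 2) * (2 / ε) = 1 := by field_simp
    rw [← mul_assoc, this, one_smul, neg_add_cancel]

/-- Key lemma, case of the eigenvalue zero. -/
lemma no_neutral_zero {φ : ℍ[ℝ] → ℍ[ℝ]} (hφ : NonstandardInvolution φ) {β : ℍ[ℝ]}
    (hβ : β * β = -1) (hβs : star β = -β)
    (hβφ : ∀ x, β * φ x = star x * β) {ℓ : ℕ} (hℓ : 2 ≤ ℓ)
    {A : ℕ → Matrix (Fin n) (Fin n) ℍ[ℝ]}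
    (hA : HypB φ ℓ A) (hs : StablyBounded φ ℓ A) {v : Fin n → ℍ[ℝ]}
    (hLv : LA ℓ A 0 v = 0)
    (hre : (∑ a, star (v a) * (β * dLA ℓ A 0 v a)) = 0) : v = 0 := by
  by_contra hv
  have hb := bounded_of_stably hA hs
  have hα : star (0 : ℍ[ℝ]) = -0 := by simp
  obtain ⟨w, hLw, hw⟩ := exists_w hβ hβs hβφ hA hb hα hv hLv
  set z : Fin n → ℍ[ℝ] := fun a => β * dLA ℓ A 0 v a with hz
  have hq : ∑ b, star (z b) * v b = 0 := by
    have : ∑ b, star (z b) * v b = star (∑ a, star (v a) * z a) := by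
      rw [star_sum]
      apply Finset.sum_congr rfl
      intro a _
      rw [star_mul (star (v a)) (z a), star_star]
    rw [this, hre, star_zero]
  set s := ∑ b, star (z b) * w b with hsdef
  have hs0 : s ≠ 0 := by
    intro h0
    apply hw
    rw [rip_comm]
    change s.re = 0
    rw [h0]; simp
  have hβ0 : β ≠ 0 := by
    rintro rfl
    simp at hβ
  obtain ⟨ε, hε, hbd⟩ := exists_perturb hφ hA hs
    (structured_YY hφ hβ hβs hβφ z hβs 1 0 0)
  have hββ : ∀ x : ℍ[ℝ], β * (β * x) = -x := by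
    intro x; rw [← mul_assoc, hβ]; simp
  have hLY : ∀ u : Fin n → ℍ[ℝ], ∀ a, LA ℓ (YY β z β 1 0 0) 0 u a =
      -(β * (z a * β * ∑ b, star (z b) * u b)) := by
    intro u a
    unfold LA
    rw [sum_range_three hℓ]
    · simp only [Pi.add_apply, YY_mulVec, DD, Matrix.smul_mulVec, Pi.smul_apply, R1_mulVec]
      simp
    · intro k hk
      obtain ⟨j, rfl⟩ : ∃ j, k = j + 3 := ⟨k - 3, by omega⟩
      funext b
      rw [YY_mulVec]
      simp [DD]
  have hdY : ∀ u : Fin n → ℍ[ℝ], dLA ℓ (YY β z β 1 0 0) 0 u = 0 := by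
    intro u
    funext a
    unfold dLA
    rw [sum_range_three hℓ]
    · simp only [Pi.add_apply, YY_mulVec, DD, Matrix.smul_mulVec, Pi.smul_apply, R1_mulVec]
      simp
    · intro k hk
      obtain ⟨j, rfl⟩ : ∃ j, k = j + 3 := ⟨k - 3, by omega⟩
      funext b
      rw [YY_mulVec]
      simp [DD]
  have hβs0 : β * s ≠ 0 := mul_ne_zero hβ0 hs0
  set c := (-(1 / ε)) • (β * s)⁻¹ with hc
  apply hv
  refine no_chain hbd (α := 0) (by simp) (y := fun a => w a * c) ?_ ?_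
  · change LA ℓ _ 0 v = 0
    rw [LA_add_coeff, hLv]
    funext a
    rw [Pi.add_apply, Pi.smul_apply, hLY, hq]
    simp
  · rw [chain_eq, LA_add_coeff, dLA_add_coeff, hdY]
    funext a
    rw [Pi.add_apply, Pi.add_apply, Pi.add_apply, Pi.smul_apply, hLY,
      LA_mul_right ℓ A (c := c) (by simp), hLw]
    have hsc : ∑ b, star (z b) * (w b * c) = s * c := by
      rw [hsdef, Finset.sum_mul]
      apply Finset.sum_congr rfl
      intro b _
      rw [mul_assoc]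
    rw [hsc]
    have h1 : z a * β * (s * c) = (-(1 / ε)) • z a := by
      rw [hc, mul_smul_comm, mul_smul_comm, mul_assoc, ← mul_assoc β s, mul_inv_cancel₀ hβs0,
        mul_one]
    have h5 : β * ((-(1 / ε)) • z a) = (1 / ε) • dLA ℓ A 0 v a := by
      rw [mul_smul_comm]
      have h6 : β * z a = -dLA ℓ A 0 v a := hββ _
      rw [h6, smul_neg, neg_smul, neg_neg]
    rw [h1, h5]
    simp only [Pi.zero_apply, zero_mul, zero_add, Pi.smul_apply, smul_zero, add_zero, smul_neg,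
      smul_smul]
    have : ε * (1 / ε) = 1 := by field_simp
    rw [this, one_smul, neg_add_cancel]

end Pool.Agent.W_MP_87a692_al
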