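import Mathlib
import Pool.Agent.W_MP_87a692_al.Chain

/-!
Block structure of the companion matrix and of the form `x_φ G y`.
-/

namespace Pool.Agent.W_MP_87a692_al

open scoped Quaternion Matrix

variable {n ℓ : ℕ}

/-- the `i`-th block of a vector -/
noncomputable def blk (x : Fin ℓ × Fin n → ℍ[ℝ]) (i : ℕ) : Fin n → ℍ[ℝ] := fun a =>
  if h : i < ℓ then x (⟨i, h⟩, a) else 0

/-- the blocks of `x` followed by the last block of `C x` -/
noncomputable def ext (A : ℕ → Matrix (Fin n) (Fin n) ℍ[ℝ]) (x : Fin ℓ × Fin n → ℍ[ℝ]) (i : ℕ) :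
    Fin n → ℍ[ℝ] :=
  if i < ℓ then blk x i else blk (companion ℓ A *ᵥ x) (ℓ - 1)

lemma blk_of_lt (x : Fin ℓ × Fin n → ℍ[ℝ]) {i : ℕ} (h : i < ℓ) (a : Fin n) :
    blk x i a = x (⟨i, h⟩, a) := by simp [blk, h]

lemma ext_of_lt (A : ℕ → Matrix (Fin n) (Fin n) ℍ[ℝ]) (x : Fin ℓ × Fin n → ℍ[ℝ]) {i : ℕ}
    (h : i < ℓ) : ext A x i = blk x i := by simp [ext, h]

lemma blk_companion (A : ℕ → Matrix (Fin n) (Fin n) ℍ[ℝ]) (x : Fin ℓ × Fin n → ℍ[ℝ]) {i : ℕ}
    (h : i < ℓ) : blk (companion ℓ A *ᵥ x) i = ext A x (i + 1) := by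
  by_cases h1 : i + 1 < ℓ
  · rw [ext_of_lt A x h1]
    funext a
    rw [blk_of_lt _ h, blk_of_lt _ h1]
    simp only [Matrix.mulVec, dotProduct, companion, h1, if_true]
    rw [Finset.sum_eq_single (⟨⟨i + 1, h1⟩, a⟩ : Fin ℓ × Fin n)]
    · simp
    · rintro ⟨j, b⟩ _ hne
      by_cases hj : j.val = i + 1
      · have hb : a ≠ b := by
          rintro rfl
          apply hne
          ext
          · exact hj
          · rfl
        simp [hj, Matrix.one_apply_ne hb]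
      · simp [hj]
    · intro hne
      exact absurd (Finset.mem_univ _) hne
  · have hi : i = ℓ - 1 := by omega
    have h2 : ¬ (i + 1 < ℓ) := h1
    unfold ext
    rw [if_neg h2, hi]

lemma blk_last (A : ℕ → Matrix (Fin n) (Fin n) ℍ[ℝ]) (x : Fin ℓ × Fin n → ℍ[ℝ]) (h : 0 < ℓ) :
    blk (companion ℓ A *ᵥ x) (ℓ - 1) =
      -(∑ j ∈ Finset.range ℓ, (Ring.inverse (A ℓ) * A j) *ᵥ blk x j) := by
  have hl : ℓ - 1 < ℓ := by omega
  funext a
  rw [blk_of_lt _ hl]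
  have hn : ¬ (ℓ - 1 + 1 < ℓ) := by omega
  simp only [Matrix.mulVec, dotProduct, companion, hn, if_false, Pi.neg_apply,
    Finset.sum_apply]
  rw [Fintype.sum_prod_type, Finset.sum_range, ← Finset.sum_neg_distrib]
  apply Finset.sum_congr rfl
  intro j _
  rw [← Finset.sum_neg_distrib]
  apply Finset.sum_congr rfl
  intro b _
  rw [blk_of_lt x j.isLt, neg_mul]

/-- The extended sequence solves the coefficient relation. -/
lemma sum_ext {A : ℕ → Matrix (Fin n) (Fin n) ℍ[ℝ]} (hA : IsUnit (A ℓ)) (hℓ : 0 < ℓ)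
    (x : Fin ℓ × Fin n → ℍ[ℝ]) :
    ∑ k ∈ Finset.range (ℓ + 1), A k *ᵥ ext A x k = 0 := by
  rw [Finset.sum_range_succ]
  have h1 : ext A x ℓ = blk (companion ℓ A *ᵥ x) (ℓ - 1) := by simp [ext]
  rw [h1, blk_last A x hℓ, Matrix.mulVec_neg]
  have h2 : A ℓ *ᵥ (∑ j ∈ Finset.range ℓ, (Ring.inverse (A ℓ) * A j) *ᵥ blk x j) =
      ∑ j ∈ Finset.range ℓ, A j *ᵥ blk x j := by
    rw [Matrix.mulVec_sum]
    apply Finset.sum_congr rfl
    intro j _
    rw [Matrix.mulVec_mulVec, ← mul_assoc, Ring.mul_inverse_cancel _ hA, one_mul]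
  rw [h2]
  have h3 : ∑ k ∈ Finset.range ℓ, A k *ᵥ ext A x k = ∑ j ∈ Finset.range ℓ, A j *ᵥ blk x j := by
    apply Finset.sum_congr rfl
    intro k hk
    rw [ext_of_lt A x (Finset.mem_range.mp hk)]
  rw [h3, add_neg_cancel]

/-- Chains of the companion matrix come from chains of the matrix polynomial. -/
lemma ext_chain {A : ℕ → Matrix (Fin n) (Fin n) ℍ[ℝ]} (hℓ : 0 < ℓ) {α : ℍ[ℝ]}
    {x y : Fin ℓ × Fin n → ℍ[ℝ]}
    (hx : companion ℓ A *ᵥ x = fun p => x p * α + y p)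
    (hy : companion ℓ A *ᵥ y = fun p => y p * α) {i : ℕ} (hi : i ≤ ℓ) :
    ext A y i = (fun a => blk y 0 a * α ^ i) ∧
    ext A x i = fun a => blk x 0 a * α ^ i + (i : ℝ) • (blk y 0 a * α ^ (i - 1)) := by
  induction i with
  | zero =>
    rw [ext_of_lt A y hℓ, ext_of_lt A x hℓ]
    constructor
    · funext a; simp
    · funext a; simp
  | succ i ih =>
    have hi' : i < ℓ := by omega
    obtain ⟨ihy, ihx⟩ := ih (by omega)
    rw [← blk_companion A y hi', ← blk_companion A x hi']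
    rw [ext_of_lt A y hi'] at ihy
    rw [ext_of_lt A x hi'] at ihx
    constructor
    · funext a
      have h1 := congrFun ihy a
      rw [blk_of_lt _ hi'] at h1 ⊢
      rw [hy]
      simp only
      rw [h1, mul_assoc, ← pow_succ]
    · funext a
      have h1 := congrFun ihy a
      have h2 := congrFun ihx a
      rw [blk_of_lt _ hi'] at h1 h2 ⊢
      rw [hx]
      simp only
      rw [h1, h2, add_mul, mul_assoc, ← pow_succ]
      rcases Nat.eq_zero_or_pos i with rfl | hpos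
      · simp
      · obtain ⟨m, rfl⟩ : ∃ m, i = m + 1 := ⟨i - 1, by omega⟩
        simp only [Nat.add_sub_cancel, smul_mul_assoc, mul_assoc, ← pow_succ]
        push_cast
        simp only [add_smul, one_smul]
        abel

lemma eq_zero_of_blk {A : ℕ → Matrix (Fin n) (Fin n) ℍ[ℝ]} {α : ℍ[ℝ]} (hℓ : 0 < ℓ)
    {y : Fin ℓ × Fin n → ℍ[ℝ]}
    (hy : companion ℓ A *ᵥ y = fun p => y p * α) (h0 : blk y 0 = 0) : y = 0 := by
  have h1 : companion ℓ A *ᵥ y = fun p => y p * α + (0 : Fin ℓ × Fin n → ℍ[ℝ]) p := by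
    rw [hy]; funext p; simp
  have h2 : companion ℓ A *ᵥ (0 : Fin ℓ × Fin n → ℍ[ℝ]) =
      fun p => (0 : Fin ℓ × Fin n → ℍ[ℝ]) p * α := by
    rw [Matrix.mulVec_zero]; funext p; simp
  funext p
  obtain ⟨i, a⟩ := p
  have h3 := (ext_chain hℓ h1 h2 (i := i.val) (by have := i.isLt; omega)).2
  rw [ext_of_lt A y i.isLt] at h3
  have h4 := congrFun h3 a
  rw [blk_of_lt y i.isLt, h0] at h4
  have h5 : blk (0 : Fin ℓ × Fin n → ℍ[ℝ]) 0 a = 0 := by
    rw [blk_of_lt _ hℓ]; rfl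
  rw [h5] at h4
  simpa using h4

/-- Eigenvectors. -/
lemma LA_of_eigen {A : ℕ → Matrix (Fin n) (Fin n) ℍ[ℝ]} (hA : IsUnit (A ℓ)) (hℓ : 0 < ℓ)
    {α : ℍ[ℝ]} {y : Fin ℓ × Fin n → ℍ[ℝ]}
    (hy : companion ℓ A *ᵥ y = fun p => y p * α) : LA ℓ A α (blk y 0) = 0 := by
  have h1 : companion ℓ A *ᵥ y = fun p => y p * α + (0 : Fin ℓ × Fin n → ℍ[ℝ]) p := by
    rw [hy]; funext p; simp
  have h2 : companion ℓ A *ᵥ (0 : Fin ℓ × Fin n → ℍ[ℝ]) =
      fun p => (0 : Fin ℓ × Fin n → ℍ[ℝ]) p * α := by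
    rw [Matrix.mulVec_zero]; funext p; simp
  have hs := sum_ext hA hℓ y
  unfold LA
  refine Eq.trans (Finset.sum_congr rfl ?_) hs
  intro k hk
  have hk' : k ≤ ℓ := by
    have := Finset.mem_range.mp hk; omega
  rw [(ext_chain hℓ h1 h2 hk').2]
  congr 1
  funext a
  have h5 : blk (0 : Fin ℓ × Fin n → ℍ[ℝ]) 0 a = 0 := by
    rw [blk_of_lt _ hℓ]; rfl
  rw [h5]
  simp

/-- Bounded systems have no generalized eigenvectors on the imaginary axis. -/
lemma semisimple {A : ℕ → Matrix (Fin n) (Fin n) ℍ[ℝ]} (hA : IsUnit (A ℓ)) (hℓ : 0 < ℓ)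
    (hb : BoundedSystem ℓ A) {α : ℍ[ℝ]} (hα : α.re = 0) {x y : Fin ℓ × Fin n → ℍ[ℝ]}
    (hx : companion ℓ A *ᵥ x = fun p => x p * α + y p)
    (hy : companion ℓ A *ᵥ y = fun p => y p * α) : y = 0 := by
  apply eq_zero_of_blk hℓ hy
  apply no_chain hb hα (y := blk x 0)
  · exact LA_of_eigen hA hℓ hy
  · refine Eq.trans (Finset.sum_congr rfl ?_) (sum_ext hA hℓ x)
    intro k hk
    have hk' : k ≤ ℓ := by
      have := Finset.mem_range.mp hk; omega
    rw [(ext_chain hℓ hx hy hk').2]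

/-! ### The form -/

/-- `B_k = β A_k` for `k ≤ ℓ` and `0` beyond. -/
noncomputable def Bk (ℓ : ℕ) (A : ℕ → Matrix (Fin n) (Fin n) ℍ[ℝ]) (β : ℍ[ℝ]) (k : ℕ) :
    Matrix (Fin n) (Fin n) ℍ[ℝ] := fun a b => if k ≤ ℓ then β * A k a b else 0

lemma Bk_mulVec (A : ℕ → Matrix (Fin n) (Fin n) ℍ[ℝ]) (β : ℍ[ℝ]) {k : ℕ} (hk : k ≤ ℓ)
    (u : Fin n → ℍ[ℝ]) (a : Fin n) : (Bk ℓ A β k *ᵥ u) a = β * (A k *ᵥ u) a := by
  simp only [Bk, hk, if_true, Matrix.mulVec, dotProduct, Finset.mul_sum, mul_assoc]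

lemma Bk_mulVec_zero (A : ℕ → Matrix (Fin n) (Fin n) ℍ[ℝ]) (β : ℍ[ℝ]) {k : ℕ} (hk : ℓ < k)
    (u : Fin n → ℍ[ℝ]) : Bk ℓ A β k *ᵥ u = 0 := by
  have : Bk ℓ A β k = 0 := by
    apply Matrix.ext
    intro a b
    simp [Bk, not_le.mpr hk]
  rw [this, Matrix.zero_mulVec]

/-- the real symmetric form on `ℍ^{ℓ n}` -/
noncomputable def rf (A : ℕ → Matrix (Fin n) (Fin n) ℍ[ℝ]) (β : ℍ[ℝ])
    (x y : Fin ℓ × Fin n → ℍ[ℝ]) : ℝ :=
  ∑ i ∈ Finset.range ℓ, ∑ j ∈ Finset.range ℓ,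
    (-1) ^ i * rip (blk x i) (Bk ℓ A β (i + j + 1) *ᵥ blk y j)

lemma rip_add_left (u u' w : Fin n → ℍ[ℝ]) : rip (u + u') w = rip u w + rip u' w := by
  unfold rip
  rw [← Quaternion.re_add, ← Finset.sum_add_distrib]
  congr 1
  apply Finset.sum_congr rfl
  intro a _
  rw [Pi.add_apply, star_add, add_mul]

lemma rip_add_right (u w w' : Fin n → ℍ[ℝ]) : rip u (w + w') = rip u w + rip u w' := by
  rw [rip_comm, rip_add_left, rip_comm w, rip_comm w']

lemma rip_smul_left (r : ℝ) (u w : Fin n → ℍ[ℝ]) : rip (r • u) w = r * rip u w := by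
  unfold rip
  rw [← smul_eq_mul, ← Quaternion.re_smul, Finset.smul_sum]
  congr 1
  apply Finset.sum_congr rfl
  intro a _
  rw [Pi.smul_apply, Quaternion.star_smul, smul_mul_assoc]

lemma rip_smul_right (r : ℝ) (u w : Fin n → ℍ[ℝ]) : rip u (r • w) = r * rip u w := by
  rw [rip_comm, rip_smul_left, rip_comm]

lemma rip_neg_left (u w : Fin n → ℍ[ℝ]) : rip (-u) w = -rip u w := by
  have := rip_smul_left (-1) u w
  simpa using this

lemma blk_add (x y : Fin ℓ × Fin n → ℍ[ℝ]) (i : ℕ) : blk (x + y) i = blk x i + blk y i := by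
  funext a
  simp only [blk, Pi.add_apply]
  split_ifs <;> simp

lemma blk_smul (r : ℝ) (x : Fin ℓ × Fin n → ℍ[ℝ]) (i : ℕ) : blk (r • x) i = r • blk x i := by
  funext a
  simp only [blk, Pi.smul_apply]
  split_ifs <;> simp

lemma blk_mul_right (x : Fin ℓ × Fin n → ℍ[ℝ]) (q : ℍ[ℝ]) (i : ℕ) :
    blk (fun p => x p * q) i = fun a => blk x i a * q := by
  funext a
  simp only [blk]
  split_ifs <;> simp

variable {A : ℕ → Matrix (Fin n) (Fin n) ℍ[ℝ]} {β : ℍ[ℝ]}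

lemma rf_add_left (x x' y : Fin ℓ × Fin n → ℍ[ℝ]) :
    rf A β (x + x') y = rf A β x y + rf A β x' y := by
  unfold rf
  simp only [← Finset.sum_add_distrib, blk_add, rip_add_left, mul_add]

lemma rf_smul_left (r : ℝ) (x y : Fin ℓ × Fin n → ℍ[ℝ]) :
    rf A β (r • x) y = r * rf A β x y := by
  unfold rf
  simp only [Finset.mul_sum, blk_smul, rip_smul_left]
  apply Finset.sum_congr rfl
  intro i _
  apply Finset.sum_congr rfl
  intro j _
  ring

/-- symmetry of one term -/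
lemma rip_Bk_symm {φ : ℍ[ℝ] → ℍ[ℝ]} (hβs : star β = -β)
    (hβφ : ∀ x, β * φ x = star x * β) (hA : HypB φ ℓ A) (k : ℕ) (u w : Fin n → ℍ[ℝ]) :
    rip u (Bk ℓ A β k *ᵥ w) = -(-1) ^ k * rip w (Bk ℓ A β k *ᵥ u) := by
  rcases le_or_gt k ℓ with hk | hk
  · have hB : ∀ a b, star (Bk ℓ A β k b a) = -((-1) ^ k * Bk ℓ A β k a b) := by
      intro a b
      simp only [Bk, hk, if_true]
      exact star_betaA hβs hβφ hA hk a b
    have hw : w = fun a => w a * 1 := by funext a; simp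
    rcases Nat.even_or_odd k with hev | hodd
    · have h1 := skew_term (B := Bk ℓ A β k) (σ := 1) (γ := 1) (Or.inl rfl)
        (by intro a b; rw [hB, hev.neg_one_pow]) (by simp) w u
      simp only [mul_one] at h1
      rw [rip_comm, h1, hev.neg_one_pow]
      ring
    · -- odd: hermitian
      rw [hodd.neg_one_pow, neg_neg, one_mul]
      unfold rip
      have h2 : (∑ a, star (u a) * (Bk ℓ A β k *ᵥ w) a) =
          star (∑ a, star (w a) * (Bk ℓ A β k *ᵥ u) a) := by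
        simp only [Matrix.mulVec, dotProduct, star_sum, Finset.mul_sum, star_mul, star_star]
        rw [Finset.sum_comm]
        apply Finset.sum_congr rfl
        intro b _
        apply Finset.sum_congr rfl
        intro a _
        rw [hB, hodd.neg_one_pow]
        simp [mul_assoc]
      rw [h2, Quaternion.re_star]
  · rw [Bk_mulVec_zero A β hk, Bk_mulVec_zero A β hk]
    simp [rip]

lemma rf_symm {φ : ℍ[ℝ] → ℍ[ℝ]} (hβs : star β = -β)
    (hβφ : ∀ x, β * φ x = star x * β) (hA : HypB φ ℓ A) (x y : Fin ℓ × Fin n → ℍ[ℝ]) :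
    rf A β x y = rf A β y x := by
  unfold rf
  rw [Finset.sum_comm]
  apply Finset.sum_congr rfl
  intro j _
  apply Finset.sum_congr rfl
  intro i _
  rw [rip_Bk_symm hβs hβφ hA, show i + j + 1 = j + i + 1 by ring]
  have h : (-1 : ℝ) ^ i * (-(-1) ^ (j + i + 1)) = (-1) ^ j := by
    have h2 : ((-1 : ℝ) ^ i) * ((-1 : ℝ) ^ i) = 1 := by
      rw [← mul_pow]; simp
    calc (-1 : ℝ) ^ i * (-(-1) ^ (j + i + 1)) = (((-1 : ℝ) ^ i) * ((-1 : ℝ) ^ i)) * (-1) ^ j := by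
          rw [pow_add, pow_add]; ring
      _ = (-1) ^ j := by rw [h2, one_mul]
  rw [← h]
  ring

lemma rip_mul_right_left (u w : Fin n → ℍ[ℝ]) (q : ℍ[ℝ]) :
    rip (fun a => u a * q) w = rip u (fun a => w a * star q) := by
  unfold rip
  rw [re_sum, re_sum]
  apply Finset.sum_congr rfl
  intro a _
  rw [star_mul, mul_assoc, re_mul_comm', mul_assoc]

lemma mulVec_mul_right (M : Matrix (Fin n) (Fin n) ℍ[ℝ]) (w : Fin n → ℍ[ℝ]) (q : ℍ[ℝ]) :
    M *ᵥ (fun a => w a * q) = fun a => (M *ᵥ w) a * q := by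
  funext a
  simp only [Matrix.mulVec, dotProduct, Finset.sum_mul, mul_assoc]

lemma rf_mul_right (x y : Fin ℓ × Fin n → ℍ[ℝ]) (q : ℍ[ℝ]) :
    rf A β (fun p => x p * q) y = rf A β x (fun p => y p * star q) := by
  unfold rf
  apply Finset.sum_congr rfl
  intro i _
  apply Finset.sum_congr rfl
  intro j _
  rw [blk_mul_right, blk_mul_right, rip_mul_right_left, mulVec_mul_right]

lemma sum_Bk_ext (hA : IsUnit (A ℓ)) (hℓ : 0 < ℓ) (x : Fin ℓ × Fin n → ℍ[ℝ]) :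
    ∑ k ∈ Finset.range (ℓ + 1), Bk ℓ A β k *ᵥ ext A x k = 0 := by
  have h := sum_ext hA hℓ x
  funext a
  have h1 := congrFun h a
  rw [Finset.sum_apply] at h1 ⊢
  have h2 : ∑ k ∈ Finset.range (ℓ + 1), (Bk ℓ A β k *ᵥ ext A x k) a =
      β * ∑ k ∈ Finset.range (ℓ + 1), (A k *ᵥ ext A x k) a := by
    rw [Finset.mul_sum]
    apply Finset.sum_congr rfl
    intro k hk
    rw [Bk_mulVec A β (by have := Finset.mem_range.mp hk; omega)]
  rw [h2, h1]
  simp

/-- `C` is skew with respect to the form. -/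
lemma rf_skew {φ : ℍ[ℝ] → ℍ[ℝ]} (hβs : star β = -β)
    (hβφ : ∀ x, β * φ x = star x * β) (hA : HypB φ ℓ A) (hℓ : 0 < ℓ)
    (x y : Fin ℓ × Fin n → ℍ[ℝ]) :
    rf A β (companion ℓ A *ᵥ x) y = -rf A β x (companion ℓ A *ᵥ y) := by
  set S : ℕ → ℕ → ℝ := fun p q =>
    (-1) ^ p * rip (ext A x p) (Bk ℓ A β (p + q) *ᵥ ext A y q) with hS
  have hS0 : ∀ p q, ℓ < p + q → S p q = 0 := by
    intro p q hpq
    simp only [hS]
    rw [Bk_mulVec_zero A β hpq]
    simp [rip]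
  have h1 : rf A β (companion ℓ A *ᵥ x) y =
      -∑ i ∈ Finset.range ℓ, ∑ j ∈ Finset.range ℓ, S (i + 1) j := by
    unfold rf
    rw [← Finset.sum_neg_distrib]
    apply Finset.sum_congr rfl
    intro i hi
    rw [← Finset.sum_neg_distrib]
    apply Finset.sum_congr rfl
    intro j hj
    rw [blk_companion A x (Finset.mem_range.mp hi), ← ext_of_lt A y (Finset.mem_range.mp hj)]
    simp only [hS]
    rw [show i + 1 + j = i + j + 1 by ring, pow_succ]
    ring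
  have h2 : rf A β x (companion ℓ A *ᵥ y) =
      ∑ i ∈ Finset.range ℓ, ∑ j ∈ Finset.range ℓ, S i (j + 1) := by
    unfold rf
    apply Finset.sum_congr rfl
    intro i hi
    apply Finset.sum_congr rfl
    intro j hj
    rw [blk_companion A y (Finset.mem_range.mp hj), ← ext_of_lt A x (Finset.mem_range.mp hi)]
    simp only [hS]
    rw [show i + (j + 1) = i + j + 1 by ring]
  set T := ∑ p ∈ Finset.range (ℓ + 1), ∑ q ∈ Finset.range (ℓ + 1), S p q with hT
  have h3 : ∑ i ∈ Finset.range ℓ, ∑ j ∈ Finset.range ℓ, S (i + 1) j =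
      T - ∑ q ∈ Finset.range (ℓ + 1), S 0 q := by
    rw [hT, Finset.sum_range_succ' (fun p => ∑ q ∈ Finset.range (ℓ + 1), S p q) ℓ,
      add_sub_cancel_right]
    apply Finset.sum_congr rfl
    intro i _
    rw [Finset.sum_range_succ, hS0 (i + 1) ℓ (by omega), add_zero]
  have h4 : ∑ i ∈ Finset.range ℓ, ∑ j ∈ Finset.range ℓ, S i (j + 1) =
      T - ∑ p ∈ Finset.range (ℓ + 1), S p 0 := by
    have h5 : ∀ i, ∑ j ∈ Finset.range ℓ, S i (j + 1) =
        ∑ q ∈ Finset.range (ℓ + 1), S i q - S i 0 := by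
      intro i
      rw [Finset.sum_range_succ' (fun q => S i q) ℓ, add_sub_cancel_right]
    have h6 : ∑ j ∈ Finset.range ℓ, S ℓ (j + 1) = 0 := by
      apply Finset.sum_eq_zero
      intro j _
      exact hS0 ℓ (j + 1) (by omega)
    rw [hT, ← Finset.sum_sub_distrib]
    rw [Finset.sum_range_succ (fun p => (∑ q ∈ Finset.range (ℓ + 1), S p q - S p 0)) ℓ, ← h5 ℓ, h6,
      add_zero]
    exact Finset.sum_congr rfl (fun i _ => h5 i)
  have h7 : ∑ q ∈ Finset.range (ℓ + 1), S 0 q = 0 := by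
    have : ∑ q ∈ Finset.range (ℓ + 1), S 0 q =
        rip (ext A x 0) (∑ q ∈ Finset.range (ℓ + 1), Bk ℓ A β q *ᵥ ext A y q) := by
      rw [rip_sum_right]
      apply Finset.sum_congr rfl
      intro q _
      simp [hS]
    rw [this, sum_Bk_ext hA.1 hℓ]
    simp [rip]
  have h8 : ∑ p ∈ Finset.range (ℓ + 1), S p 0 = 0 := by
    have : ∑ p ∈ Finset.range (ℓ + 1), S p 0 =
        -rip (ext A y 0) (∑ q ∈ Finset.range (ℓ + 1), Bk ℓ A β q *ᵥ ext A x q) := by
      rw [rip_sum_right, ← Finset.sum_neg_distrib]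
      apply Finset.sum_congr rfl
      intro p _
      simp only [hS, add_zero]
      rw [rip_Bk_symm hβs hβφ hA]
      have h2 : ((-1 : ℝ) ^ p) * ((-1 : ℝ) ^ p) = 1 := by
        rw [← mul_pow]; simp
      calc (-1 : ℝ) ^ p * (-(-1) ^ p * rip (ext A y 0) (Bk ℓ A β p *ᵥ ext A x p)) =
          -((((-1 : ℝ) ^ p) * ((-1 : ℝ) ^ p)) * rip (ext A y 0) (Bk ℓ A β p *ᵥ ext A x p)) := by
            ring
        _ = _ := by rw [h2, one_mul]
    rw [this, sum_Bk_ext hA.1 hℓ]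
    simp [rip]
  rw [h1, h2, h3, h4, h7, h8]

/-- relation with the form of the statement -/
lemma rf_eq {φ : ℍ[ℝ] → ℍ[ℝ]} (hβφ : ∀ x, β * φ x = star x * β)
    (x y : Fin ℓ × Fin n → ℍ[ℝ]) :
    rf A β x y = (β * ((fun p => φ (x p)) ⬝ᵥ (formG ℓ A *ᵥ y))).re := by
  have h1 : β * ((fun p => φ (x p)) ⬝ᵥ (formG ℓ A *ᵥ y)) =
      ∑ i : Fin ℓ, ∑ a : Fin n, star (x (i, a)) *
        ∑ j : Fin ℓ, ∑ b : Fin n, β * formG ℓ A (i, a) (j, b) * y (j, b) := by
    simp only [dotProduct, Matrix.mulVec]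
    rw [Fintype.sum_prod_type, Finset.mul_sum]
    apply Finset.sum_congr rfl
    intro i _
    rw [Finset.mul_sum]
    apply Finset.sum_congr rfl
    intro a _
    rw [← mul_assoc, hβφ, mul_assoc, Fintype.sum_prod_type, Finset.mul_sum]
    congr 1
    apply Finset.sum_congr rfl
    intro j _
    rw [Finset.mul_sum]
    apply Finset.sum_congr rfl
    intro b _
    rw [mul_assoc]
  rw [h1]
  unfold rf
  rw [Finset.sum_range, re_sum]
  apply Finset.sum_congr rfl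
  intro i _
  rw [Finset.sum_range]
  have h2 : ∀ a : Fin n, star (x (i, a)) *
        ∑ j : Fin ℓ, ∑ b : Fin n, β * formG ℓ A (i, a) (j, b) * y (j, b) =
      ∑ j : Fin ℓ, star (x (i, a)) * ∑ b : Fin n, β * formG ℓ A (i, a) (j, b) * y (j, b) := by
    intro a
    rw [Finset.mul_sum]
  simp only [h2]
  rw [Finset.sum_comm, re_sum]
  apply Finset.sum_congr rfl
  intro j _
  unfold rip
  rw [← smul_eq_mul, ← Quaternion.re_smul, Finset.smul_sum]
  congr 1
  apply Finset.sum_congr rfl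
  intro a _
  rw [blk_of_lt x i.isLt]
  simp only [Matrix.mulVec, dotProduct]
  rw [← mul_smul_comm, Finset.smul_sum]
  congr 1
  apply Finset.sum_congr rfl
  intro b _
  rw [blk_of_lt y j.isLt]
  simp only [Bk, formG]
  by_cases hij : i.val + j.val + 1 ≤ ℓ
  · rw [if_pos hij, if_pos hij]
    rcases neg_one_pow_eq_or ℍ[ℝ] i.val with h | h <;>
      rcases neg_one_pow_eq_or ℝ i.val with h' | h'
    · rw [h, h']; simp
    · exfalso
      have h3 : ((((-1 : ℝ) ^ i.val : ℝ)) : ℍ[ℝ]) = (-1 : ℍ[ℝ]) ^ i.val := by push_cast; rfl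
      rw [h, h'] at h3
      have := congrArg (fun q : ℍ[ℝ] => q.re) h3
      simp at this
      norm_num at this
    · exfalso
      have h3 : ((((-1 : ℝ) ^ i.val : ℝ)) : ℍ[ℝ]) = (-1 : ℍ[ℝ]) ^ i.val := by push_cast; rfl
      rw [h, h'] at h3
      have := congrArg (fun q : ℍ[ℝ] => q.re) h3
      simp at this
      norm_num at this
    · rw [h, h']; simp
  · rw [if_neg hij, if_neg hij]
    simp

end Pool.Agent.W_MP_87a692_al
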