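import Mathlib
import Pool.Agent.W_MP_87a692_al.Blocks

/-!
Root subspaces of stably bounded systems are definite.
-/

namespace Pool.Agent.W_MP_87a692_al

open scoped Quaternion Matrix

section General

set_option linter.unusedSectionVars false

variable {N : Type*} [Fintype N]

/-- right multiplication -/
noncomputable def rm (q : ℍ[ℝ]) (x : N → ℍ[ℝ]) : N → ℍ[ℝ] := fun p => x p * q

lemma mulVec_rm (C : Matrix N N ℍ[ℝ]) (q : ℍ[ℝ]) (x : N → ℍ[ℝ]) :
    C *ᵥ rm q x = rm q (C *ᵥ x) := by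
  funext p
  simp only [rm, Matrix.mulVec, dotProduct, Finset.sum_mul, mul_assoc]

lemma rm_add (q : ℍ[ℝ]) (x y : N → ℍ[ℝ]) : rm q (x + y) = rm q x + rm q y := by
  funext p; simp [rm, add_mul]

lemma rm_sub (q : ℍ[ℝ]) (x y : N → ℍ[ℝ]) : rm q (x - y) = rm q x - rm q y := by
  funext p; simp [rm, sub_mul]

lemma rm_neg (q : ℍ[ℝ]) (x : N → ℍ[ℝ]) : rm q (-x) = -rm q x := by
  funext p; simp [rm]

lemma rm_smul (q : ℍ[ℝ]) (c : ℝ) (x : N → ℍ[ℝ]) : rm q (c • x) = c • rm q x := by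
  funext p; simp [rm]

lemma rm_rm (p q : ℍ[ℝ]) (x : N → ℍ[ℝ]) : rm p (rm q x) = rm (q * p) x := by
  funext i; simp [rm, mul_assoc]

lemma rm_real (c : ℝ) (x : N → ℍ[ℝ]) : rm (c : ℍ[ℝ]) x = c • x := by
  funext i
  simp only [rm, Pi.smul_apply]
  rw [← Quaternion.coe_commutes, Quaternion.coe_mul_eq_smul]

lemma rm_neg_left (q : ℍ[ℝ]) (x : N → ℍ[ℝ]) : rm (-q) x = -rm q x := by
  funext p; simp [rm]

lemma rm_one (x : N → ℍ[ℝ]) : rm 1 x = x := by
  funext p; simp [rm]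

lemma rm_injective {q : ℍ[ℝ]} (hq : q ≠ 0) {x : N → ℍ[ℝ]} (h : rm q x = 0) : x = 0 := by
  funext p
  have := congrFun h p
  simpa [rm, hq] using this

variable [DecidableEq N]

lemma ker_pow_of_semisimple {P : Matrix N N ℍ[ℝ]}
    (h : ∀ z, P *ᵥ (P *ᵥ z) = 0 → P *ᵥ z = 0) (d : ℕ) {x : N → ℍ[ℝ]}
    (hx : (P ^ d) *ᵥ x = 0) : P *ᵥ x = 0 := by
  induction d with
  | zero =>
    rw [pow_zero, Matrix.one_mulVec] at hx
    rw [hx, Matrix.mulVec_zero]
  | succ d ih =>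
    rcases Nat.eq_zero_or_pos d with rfl | hd
    · simpa using hx
    · obtain ⟨m, rfl⟩ : ∃ m, d = m + 1 := ⟨d - 1, by omega⟩
      apply ih
      rw [pow_succ', pow_succ', ← mul_assoc, mul_assoc, ← Matrix.mulVec_mulVec,
        ← Matrix.mulVec_mulVec] at hx
      rw [pow_succ', ← Matrix.mulVec_mulVec]
      exact h _ hx

end General

/-- an anticommuting unit -/
lemma exists_anticomm {ι : ℍ[ℝ]} (hι2 : ι * ι = -1) :
    ∃ q : ℍ[ℝ], q * ι = -(ι * q) ∧ q * star q = 1 := by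
  obtain ⟨p, hp⟩ : ∃ p : ℍ[ℝ], p * ι ≠ ι * p := by
    by_contra hcon
    push Not at hcon
    have h1 := hcon ⟨0, 1, 0, 0⟩
    have h2 := hcon ⟨0, 0, 1, 0⟩
    simp only [Quaternion.ext_iff, Quaternion.re_mul, Quaternion.imI_mul, Quaternion.imJ_mul,
      Quaternion.imK_mul] at h1 h2
    obtain ⟨_, _, h13, h14⟩ := h1
    obtain ⟨_, h22, _, h24⟩ := h2
    have hJ : ι.imJ = 0 := by linarith
    have hK : ι.imK = 0 := by linarith
    have hI : ι.imI = 0 := by linarith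
    have h3 := congrArg (fun q : ℍ[ℝ] => q.re) hι2
    simp only [Quaternion.re_mul, hI, hJ, hK, Quaternion.re_neg, Quaternion.re_one] at h3
    nlinarith [mul_self_nonneg ι.re]
  set q := p + ι * p * ι with hq
  have hanti : q * ι = -(ι * q) := by
    have e1 : q * ι = p * ι + ι * p * (ι * ι) := by rw [hq]; noncomm_ring
    have e2 : ι * q = ι * p + (ι * ι) * p * ι := by rw [hq]; noncomm_ring
    rw [e1, e2, hι2]
    noncomm_ring
  have hq0 : q ≠ 0 := by
    intro h0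
    apply hp
    have e1 : ι * q = ι * p + (ι * ι) * p * ι := by rw [hq]; noncomm_ring
    rw [h0, hι2, mul_zero] at e1
    have e2 : ι * p - p * ι = 0 := by
      rw [e1]; noncomm_ring
    exact (sub_eq_zero.mp e2).symm
  have hn : ‖q‖ ≠ 0 := norm_ne_zero_iff.mpr hq0
  refine ⟨‖q‖⁻¹ • q, ?_, ?_⟩
  · rw [smul_mul_assoc, hanti, mul_smul_comm, smul_neg]
  · rw [Quaternion.star_smul, smul_mul_smul_comm, Quaternion.self_mul_star,
      Quaternion.normSq_eq_norm_mul_self, ← Quaternion.coe_mul_eq_smul, ← Quaternion.coe_mul]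
    have : ‖q‖⁻¹ * ‖q‖⁻¹ * (‖q‖ * ‖q‖) = 1 := by field_simp
    rw [this, Quaternion.coe_one]

section Main

variable {n ℓ : ℕ} {A : ℕ → Matrix (Fin n) (Fin n) ℍ[ℝ]} {β : ℍ[ℝ]} {φ : ℍ[ℝ] → ℍ[ℝ]}

lemma rf_rm (x y : Fin ℓ × Fin n → ℍ[ℝ]) (q : ℍ[ℝ]) :
    rf A β (rm q x) y = rf A β x (rm (star q) y) := rf_mul_right x y q

lemma rf_add_right (hβs : star β = -β) (hβφ : ∀ x, β * φ x = star x * β) (hA : HypB φ ℓ A)
    (x y y' : Fin ℓ × Fin n → ℍ[ℝ]) :
    rf A β x (y + y') = rf A β x y + rf A β x y' := by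
  rw [rf_symm hβs hβφ hA, rf_add_left, rf_symm hβs hβφ hA y, rf_symm hβs hβφ hA y']

lemma rf_smul_right (hβs : star β = -β) (hβφ : ∀ x, β * φ x = star x * β) (hA : HypB φ ℓ A)
    (r : ℝ) (x y : Fin ℓ × Fin n → ℍ[ℝ]) :
    rf A β x (r • y) = r * rf A β x y := by
  rw [rf_symm hβs hβφ hA, rf_smul_left, rf_symm hβs hβφ hA y]

lemma rf_neg_left (x y : Fin ℓ × Fin n → ℍ[ℝ]) : rf A β (-x) y = -rf A β x y := by
  have := rf_smul_left (A := A) (β := β) (-1) x y
  simpa using this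

lemma rf_neg_right (hβs : star β = -β) (hβφ : ∀ x, β * φ x = star x * β) (hA : HypB φ ℓ A)
    (x y : Fin ℓ × Fin n → ℍ[ℝ]) : rf A β x (-y) = -rf A β x y := by
  rw [rf_symm hβs hβφ hA, rf_neg_left, rf_symm hβs hβφ hA y]

/-- orthogonality of the eigenspaces of `α` and `-α` -/
lemma rf_orth (hβs : star β = -β) (hβφ : ∀ x, β * φ x = star x * β) (hA : HypB φ ℓ A)
    (hℓ : 0 < ℓ) {α : ℍ[ℝ]} (hα : star α = -α) {ω : ℝ} (hω : 0 < ω)
    (hα2 : α * α = ((-(ω ^ 2) : ℝ) : ℍ[ℝ])) {a b : Fin ℓ × Fin n → ℍ[ℝ]}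
    (ha : companion ℓ A *ᵥ a = rm α a) (hb : companion ℓ A *ᵥ b = -rm α b) :
    rf A β a b = 0 := by
  have key : ∀ a, companion ℓ A *ᵥ a = rm α a → rf A β (rm α a) b = 0 := by
    intro a ha
    have h1 : rf A β (rm α a) b = rf A β a (rm α b) := by
      rw [← ha, rf_skew hβs hβφ hA hℓ, hb, rf_neg_right hβs hβφ hA, neg_neg]
    have h2 : rf A β (rm α a) b = -rf A β a (rm α b) := by
      rw [rf_rm, hα, rm_neg_left, rf_neg_right hβs hβφ hA]
    linarith
  have h1 := key (rm α a) (by rw [mulVec_rm, ha])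
  rw [rm_rm, hα2, rm_real, rf_smul_left] at h1
  have h2 : -(ω ^ 2) ≠ 0 := by
    have := pow_pos hω 2
    linarith
  exact (mul_eq_zero.mp h1).resolve_left h2

lemma blk_eigen (hℓ : 0 < ℓ) {α : ℍ[ℝ]} {y : Fin ℓ × Fin n → ℍ[ℝ]}
    (hy : companion ℓ A *ᵥ y = rm α y) {i : ℕ} (hi : i < ℓ) :
    blk y i = fun a => blk y 0 a * α ^ i := by
  have h1 : companion ℓ A *ᵥ y = fun p => y p * α + (0 : Fin ℓ × Fin n → ℍ[ℝ]) p := by
    rw [hy]; funext p; simp [rm]
  have h2 : companion ℓ A *ᵥ (0 : Fin ℓ × Fin n → ℍ[ℝ]) =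
      fun p => (0 : Fin ℓ × Fin n → ℍ[ℝ]) p * α := by
    rw [Matrix.mulVec_zero]; funext p; simp
  have h3 := (ext_chain hℓ h1 h2 (i := i) hi.le).2
  rw [ext_of_lt A y hi] at h3
  rw [h3]
  funext a
  have h5 : blk (0 : Fin ℓ × Fin n → ℍ[ℝ]) 0 a = 0 := by
    rw [blk_of_lt _ hℓ]; rfl
  rw [h5]
  simp

lemma star_pow_real {α : ℍ[ℝ]} (hα : star α = -α) (k : ℕ) :
    star (α ^ k) = ((-1 : ℝ) ^ k) • α ^ k := by
  rw [star_pow_pure hα]
  rcases Nat.even_or_odd k with h | h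
  · rw [h.neg_one_pow, h.neg_one_pow]; simp
  · rw [h.neg_one_pow, h.neg_one_pow]; simp

lemma double_sum (ℓ : ℕ) (f : ℕ → ℝ) (hf : ∀ k, ℓ < k → f k = 0) :
    ∑ i ∈ Finset.range ℓ, ∑ j ∈ Finset.range ℓ, f (i + j + 1) =
      ∑ k ∈ Finset.range (ℓ + 1), (k : ℝ) * f k := by
  have h1 : ∀ i ∈ Finset.range ℓ, ∑ j ∈ Finset.range ℓ, f (i + j + 1) =
      ∑ k ∈ Finset.range (ℓ + 1), if i < k then f k else 0 := by
    intro i hi
    rw [← Finset.sum_filter]
    have e1 : ∑ j ∈ Finset.range ℓ, f (i + j + 1) = ∑ k ∈ Finset.Ico (i + 1) (i + 1 + ℓ), f k := by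
      rw [Finset.sum_Ico_eq_sum_range]
      rw [show i + 1 + ℓ - (i + 1) = ℓ by omega]
      apply Finset.sum_congr rfl
      intro j _
      rw [show i + 1 + j = i + j + 1 by ring]
    rw [e1]
    symm
    apply Finset.sum_subset
    · intro k hk
      rw [Finset.mem_filter, Finset.mem_range] at hk
      rw [Finset.mem_Ico]
      omega
    · intro k hk1 hk2
      rw [Finset.mem_Ico] at hk1
      rw [Finset.mem_filter, Finset.mem_range] at hk2
      apply hf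
      omega
  rw [Finset.sum_congr rfl h1, Finset.sum_comm]
  apply Finset.sum_congr rfl
  intro k hk
  rw [← Finset.sum_filter, Finset.sum_const, nsmul_eq_mul]
  have : (Finset.range ℓ).filter (fun i => i < k) = Finset.range k := by
    ext i
    rw [Finset.mem_filter, Finset.mem_range, Finset.mem_range]
    rw [Finset.mem_range] at hk
    omega
  rw [this, Finset.card_range]

lemma beta_dLA (α : ℍ[ℝ]) (v : Fin n → ℍ[ℝ]) :
    (fun a => β * dLA ℓ A α v a) =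
      ∑ k ∈ Finset.range (ℓ + 1), (k : ℝ) • (Bk ℓ A β k *ᵥ (fun a => v a * α ^ (k - 1))) := by
  funext a
  rw [Finset.sum_apply]
  unfold dLA
  rw [Finset.sum_apply, Finset.mul_sum]
  apply Finset.sum_congr rfl
  intro k hk
  rw [Pi.smul_apply, Bk_mulVec A β (by have := Finset.mem_range.mp hk; omega)]
  have : (fun a => (k : ℝ) • (v a * α ^ (k - 1))) = (k : ℝ) • (fun a => v a * α ^ (k - 1)) := rfl
  rw [this, Matrix.mulVec_smul, Pi.smul_apply, mul_smul_comm]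

/-- the value of the form on an eigenvector -/
lemma rf_eigen (hℓ : 0 < ℓ) {α : ℍ[ℝ]} (hα : star α = -α) {y : Fin ℓ × Fin n → ℍ[ℝ]}
    (hy : companion ℓ A *ᵥ y = rm α y) :
    rf A β y y = (∑ a, star (blk y 0 a) * (β * dLA ℓ A α (blk y 0) a)).re := by
  set v := blk y 0 with hv
  have h1 : (∑ a, star (v a) * (β * dLA ℓ A α v a)).re =
      ∑ k ∈ Finset.range (ℓ + 1), (k : ℝ) *
        rip v (Bk ℓ A β k *ᵥ (fun a => v a * α ^ (k - 1))) := by
    change rip v (fun a => β * dLA ℓ A α v a) = _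
    rw [beta_dLA, rip_sum_right]
    apply Finset.sum_congr rfl
    intro k _
    rw [rip_smul_right]
  rw [h1, ← double_sum ℓ (fun k => rip v (Bk ℓ A β k *ᵥ (fun a => v a * α ^ (k - 1))))]
  · unfold rf
    apply Finset.sum_congr rfl
    intro i hi
    apply Finset.sum_congr rfl
    intro j hj
    rw [blk_eigen hℓ hy (Finset.mem_range.mp hi), blk_eigen hℓ hy (Finset.mem_range.mp hj), ← hv,
      rip_mul_right_left, star_pow_real hα]
    have h2 : (fun a => (Bk ℓ A β (i + j + 1) *ᵥ fun a => v a * α ^ j) a * (-1 : ℝ) ^ i • α ^ i) =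
        ((-1 : ℝ) ^ i) • (Bk ℓ A β (i + j + 1) *ᵥ fun a => v a * α ^ (i + j + 1 - 1)) := by
      have h3 : (fun a => v a * α ^ (i + j + 1 - 1)) = fun a => (v a * α ^ j) * α ^ i := by
        funext a
        rw [mul_assoc, ← pow_add, show i + j + 1 - 1 = j + i by omega]
      rw [h3, mulVec_mul_right _ (fun a => v a * α ^ j) (α ^ i)]
      funext a
      rw [Pi.smul_apply, mul_smul_comm]
    rw [h2, rip_smul_right, ← mul_assoc, ← mul_pow]
    simp
  · intro k hk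
    rw [Bk_mulVec_zero A β hk]
    simp [rip]

/-- the other components vanish automatically -/
lemma dLA_im (hβs : star β = -β) (hβφ : ∀ x, β * φ x = star x * β) (hA : HypB φ ℓ A)
    {α q : ℍ[ℝ]} (hα : star α = -α) (hq : star q = -q) (hc : q * α = α * q)
    (v : Fin n → ℍ[ℝ]) :
    ((∑ a, star (v a) * (β * dLA ℓ A α v a)) * q).re = 0 := by
  have h1 : ((∑ a, star (v a) * (β * dLA ℓ A α v a)) * q).re =
      rip v (fun a => (fun a => β * dLA ℓ A α v a) a * q) := by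
    unfold rip
    rw [Finset.sum_mul]
    simp only [mul_assoc]
  rw [h1, beta_dLA]
  have h2 : (fun a => (∑ k ∈ Finset.range (ℓ + 1),
      (k : ℝ) • (Bk ℓ A β k *ᵥ (fun a => v a * α ^ (k - 1)))) a * q) =
      ∑ k ∈ Finset.range (ℓ + 1),
      (k : ℝ) • (Bk ℓ A β k *ᵥ (fun a => v a * (α ^ (k - 1) * q))) := by
    funext a
    rw [Finset.sum_apply, Finset.sum_apply, Finset.sum_mul]
    apply Finset.sum_congr rfl
    intro k _
    have h3 : (fun a => v a * (α ^ (k - 1) * q)) = fun a => (v a * α ^ (k - 1)) * q := by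
      funext a; rw [mul_assoc]
    rw [h3, mulVec_mul_right _ (fun a => v a * α ^ (k - 1)) q, Pi.smul_apply, Pi.smul_apply,
      smul_mul_assoc]
  rw [h2, rip_sum_right]
  apply Finset.sum_eq_zero
  intro k hk
  have hk' : k ≤ ℓ := by have := Finset.mem_range.mp hk; omega
  rw [rip_smul_right]
  rcases Nat.eq_zero_or_pos k with rfl | hpos
  · simp
  · obtain ⟨m, rfl⟩ : ∃ m, k = m + 1 := ⟨k - 1, by omega⟩
    have hB : ∀ a b, star (Bk ℓ A β (m + 1) b a) = -((-1) ^ (m + 1) * Bk ℓ A β (m + 1) a b) := by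
      intro a b
      simp only [Bk, hk', if_true]
      exact star_betaA hβs hβφ hA hk' a b
    have hγ : star (α ^ (m + 1 - 1) * q) = (-1) ^ (m + 1) * (α ^ (m + 1 - 1) * q) := by
      rw [Nat.add_sub_cancel, star_mul, star_pow_pure hα, hq]
      have hc' : q * α ^ m = α ^ m * q := Commute.pow_right hc m
      rcases neg_one_pow_eq_or ℍ[ℝ] m with h | h
      · rw [pow_succ, h]
        simp only [one_mul, neg_mul, hc']
      · rw [pow_succ, h]
        simp only [neg_mul, one_mul, mul_neg, neg_neg, hc']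
    have h4 := skew_term (neg_one_pow_eq_or ℍ[ℝ] (m + 1)) hB hγ v v
    rw [rip_comm] at h4
    have h5 : rip v (Bk ℓ A β (m + 1) *ᵥ fun a => v a * (α ^ (m + 1 - 1) * q)) = 0 := by
      linarith
    rw [h5, mul_zero]

/-- No neutral eigenvector, nonreal eigenvalue. -/
lemma not_neutral (hφ : NonstandardInvolution φ) (hβ : β * β = -1) (hβs : star β = -β)
    (hβφ : ∀ x, β * φ x = star x * β) (hℓ : 2 ≤ ℓ) (hA : HypB φ ℓ A)
    (hs : StablyBounded φ ℓ A) {ι : ℍ[ℝ]} (hι2 : ι * ι = -1)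
    (hι : star ι = -ι) {ω : ℝ} (hω : 0 < ω) {y : Fin ℓ × Fin n → ℍ[ℝ]}
    (hy : companion ℓ A *ᵥ y = rm (ω • ι) y) (hrf : rf A β y y = 0) : y = 0 := by
  have hα : star (ω • ι) = -(ω • ι) := by rw [Quaternion.star_smul, hι, smul_neg]
  apply eq_zero_of_blk (α := ω • ι) (by omega) hy
  apply no_neutral hφ hβ hβs hβφ hℓ hA hs hι2 hι hω (LA_of_eigen hA.1 (by omega) hy)
  · rw [← rf_eigen (by omega) hα hy]; exact hrf
  · apply dLA_im hβs hβφ hA hα hι
    rw [mul_smul_comm, smul_mul_assoc]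

/-- No neutral eigenvector, eigenvalue zero. -/
lemma not_neutral_zero (hφ : NonstandardInvolution φ) (hβ : β * β = -1) (hβs : star β = -β)
    (hβφ : ∀ x, β * φ x = star x * β) (hℓ : 2 ≤ ℓ) (hA : HypB φ ℓ A)
    (hs : StablyBounded φ ℓ A) {y : Fin ℓ × Fin n → ℍ[ℝ]}
    (hy : companion ℓ A *ᵥ y = 0) (hrf : rf A β y y = 0) : y = 0 := by
  have hα : star (0 : ℍ[ℝ]) = -0 := by simp
  have hy' : companion ℓ A *ᵥ y = rm 0 y := by
    rw [hy]; funext p; simp [rm]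
  apply eq_zero_of_blk (α := 0) (by omega) hy'
  apply no_neutral_zero hφ hβ hβs hβφ hℓ hA hs (LA_of_eigen hA.1 (by omega) hy')
  set X := ∑ a, star (blk y 0 a) * (β * dLA ℓ A 0 (blk y 0) a) with hX
  have hXre : X.re = 0 := by rw [hX, ← rf_eigen (by omega) hα hy']; exact hrf
  have hXs : star X = -X := Quaternion.star_eq_neg.mpr hXre
  have h1 : (X * star X).re = 0 := by
    rw [hX]
    apply dLA_im hβs hβφ hA hα
    · rw [← hX, star_star, hXs, neg_neg]
    · simp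
  rw [Quaternion.self_mul_star, Quaternion.re_coe] at h1
  exact Quaternion.normSq_eq_zero.mp h1

end Main

end Pool.Agent.W_MP_87a692_al
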