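import Mathlib
import Pool.Agent.W_MP_87a692_al.Root

/-!
Root subspaces of stably bounded systems are definite: the end of the proof.
-/

namespace Pool.Agent.W_MP_87a692_al

open scoped Quaternion Matrix

variable {n ℓ : ℕ} {A : ℕ → Matrix (Fin n) (Fin n) ℍ[ℝ]} {β : ℍ[ℝ]} {φ : ℍ[ℝ] → ℍ[ℝ]}

lemma rf_expand (hβs : star β = -β) (hβφ : ∀ x, β * φ x = star x * β) (hA : HypB φ ℓ A)
    (a b : Fin ℓ × Fin n → ℍ[ℝ]) (s t : ℝ) :
    rf A β (s • a + t • b) (s • a + t • b) =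
      s ^ 2 * rf A β a a + 2 * s * t * rf A β a b + t ^ 2 * rf A β b b := by
  rw [rf_add_left, rf_add_right hβs hβφ hA, rf_add_right hβs hβφ hA, rf_smul_left,
    rf_smul_left, rf_smul_left, rf_smul_left, rf_smul_right hβs hβφ hA,
    rf_smul_right hβs hβφ hA, rf_smul_right hβs hβφ hA, rf_smul_right hβs hβφ hA,
    rf_symm hβs hβφ hA b a]
  ring

/-- a quadratic argument -/
lemma exists_neutral (hβs : star β = -β) (hβφ : ∀ x, β * φ x = star x * β) (hA : HypB φ ℓ A)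
    {a b : Fin ℓ × Fin n → ℍ[ℝ]} (h : rf A β a a + rf A β b b = 0) (hne : a ≠ 0 ∨ b ≠ 0) :
    ∃ s t : ℝ, s • a + t • b ≠ 0 ∧ rf A β (s • a + t • b) (s • a + t • b) = 0 := by
  have hexp : ∀ s t : ℝ, rf A β (s • a + t • b) (s • a + t • b) =
      s ^ 2 * rf A β a a + 2 * s * t * rf A β a b + t ^ 2 * rf A β b b :=
    rf_expand hβs hβφ hA a b
  set P := rf A β a a with hP
  set Q := rf A β a b with hQ
  have hb : rf A β b b = -P := by linarith
  by_cases hP0 : P = 0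
  · rcases hne with ha | hb'
    · refine ⟨1, 0, by simpa using ha, ?_⟩
      rw [hexp, hP0]; ring
    · refine ⟨0, 1, by simpa using hb', ?_⟩
      rw [hexp, hb, hP0]; ring
  · set D := Real.sqrt (Q ^ 2 + P ^ 2) with hD
    have hD2 : D ^ 2 = Q ^ 2 + P ^ 2 := Real.sq_sqrt (by positivity)
    set t := (Q + D) / P with ht
    have htP : t * P = Q + D := by rw [ht]; field_simp
    refine ⟨1, t, ?_, ?_⟩
    · intro h0
      rw [one_smul] at h0
      have h1 : a = -(t • b) := eq_neg_of_add_eq_zero_left h0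
      have h2 : P = t ^ 2 * (-P) := by
        rw [← hb, hP, h1, rf_neg_left, rf_neg_right hβs hβφ hA, neg_neg, rf_smul_left,
          rf_smul_right hβs hβφ hA]
        ring
      have h3 : P * (1 + t ^ 2) = 0 := by linarith
      rcases mul_eq_zero.mp h3 with h4 | h4
      · exact hP0 h4
      · have := sq_nonneg t
        linarith
    · rw [hexp, hb]
      have h5 : P * (1 ^ 2 * P + 2 * 1 * t * Q + t ^ 2 * -P) =
          P ^ 2 + 2 * (t * P) * Q - (t * P) ^ 2 := by ring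
      rw [htP] at h5
      have h6 : P ^ 2 + 2 * (Q + D) * Q - (Q + D) ^ 2 = 0 := by
        have : P ^ 2 + 2 * (Q + D) * Q - (Q + D) ^ 2 = P ^ 2 + Q ^ 2 - D ^ 2 := by ring
        rw [this, hD2]; ring
      rw [h6] at h5
      exact (mul_eq_zero.mp h5).resolve_left hP0

lemma neutral_of_ker (hβs : star β = -β) (hβφ : ∀ x, β * φ x = star x * β) (hA : HypB φ ℓ A)
    (hℓ : 0 < ℓ) {ι : ℍ[ℝ]} (hι2 : ι * ι = -1)
    (hι : star ι = -ι) {ω : ℝ} (hω : 0 < ω) {x : Fin ℓ × Fin n → ℍ[ℝ]}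
    (hx : companion ℓ A *ᵥ (companion ℓ A *ᵥ x) + (ω ^ 2) • x = 0) (hx0 : x ≠ 0)
    (hrf : rf A β x x = 0) :
    ∃ y, y ≠ 0 ∧ companion ℓ A *ᵥ y = rm (ω • ι) y ∧ rf A β y y = 0 := by
  set α := ω • ι with hαdef
  have hα : star α = -α := by rw [hαdef, Quaternion.star_smul, hι, smul_neg]
  have hα2 : α * α = ((-(ω ^ 2) : ℝ) : ℍ[ℝ]) := by
    rw [hαdef, smul_mul_smul_comm, hι2, ← Quaternion.coe_mul_eq_smul, mul_neg_one,
      ← Quaternion.coe_neg, ← sq]
  have hα0 : α ≠ 0 := by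
    intro h0
    rw [h0, mul_zero] at hα2
    have h1 := congrArg (fun q : ℍ[ℝ] => q.re) hα2
    simp only [Quaternion.re_zero, Quaternion.re_coe] at h1
    have := pow_pos hω 2
    linarith
  have hx' : companion ℓ A *ᵥ (companion ℓ A *ᵥ x) = -((ω ^ 2) • x) :=
    eq_neg_of_add_eq_zero_left hx
  set C := companion ℓ A with hC
  set a := C *ᵥ x + rm α x with ha
  set b := C *ᵥ x - rm α x with hb
  have hCa : C *ᵥ a = rm α a := by
    rw [ha, Matrix.mulVec_add, hx', mulVec_rm, rm_add, rm_rm, hα2, rm_real, neg_smul, add_comm]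
  have hCb : C *ᵥ b = -rm α b := by
    rw [hb, Matrix.mulVec_sub, hx', mulVec_rm, rm_sub, rm_rm, hα2, rm_real, neg_smul]
    abel
  obtain ⟨q, hqι, hqq⟩ := exists_anticomm hι2
  have hqα : q * α = -(α * q) := by
    rw [hαdef, mul_smul_comm, hqι, smul_mul_assoc, smul_neg]
  have hq0 : q ≠ 0 := by
    rintro rfl
    simp at hqq
  set b' := rm q b with hb'
  have hCb' : C *ᵥ b' = rm α b' := by
    rw [hb', mulVec_rm, hCb, rm_neg, rm_rm, rm_rm, hqα, rm_neg_left]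
  have hbb : rf A β b' b' = rf A β b b := by
    rw [hb', rf_rm, rm_rm, hqq, rm_one]
  have hxx : rf A β (rm α x) (rm α x) = 0 := by
    have h1 : α * star α = ((ω ^ 2 : ℝ) : ℍ[ℝ]) := by
      rw [hα, mul_neg, hα2, ← Quaternion.coe_neg, neg_neg]
    rw [rf_rm, rm_rm, h1, rm_real, rf_smul_right hβs hβφ hA, hrf, mul_zero]
  have hab0 : rf A β a b = 0 := rf_orth hβs hβφ hA hℓ hα hω hα2 hCa hCb
  have h2x : (2 : ℝ) • rm α x = (1 : ℝ) • a + (-1 : ℝ) • b := by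
    rw [ha, hb]
    module
  have hsum : rf A β a a + rf A β b' b' = 0 := by
    have h1 : rf A β ((2 : ℝ) • rm α x) ((2 : ℝ) • rm α x) = 0 := by
      rw [rf_smul_left, rf_smul_right hβs hβφ hA, hxx]; ring
    rw [h2x, rf_expand hβs hβφ hA, hab0] at h1
    rw [hbb]
    linarith
  have hne : a ≠ 0 ∨ b' ≠ 0 := by
    by_contra hcon
    push Not at hcon
    obtain ⟨h1, h2⟩ := hcon
    have h3 : b = 0 := rm_injective hq0 h2
    rw [h1, h3] at h2x
    apply hx0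
    apply rm_injective hα0
    have h4 : (2 : ℝ) • rm α x = 0 := by rw [h2x]; simp
    exact (smul_eq_zero.mp h4).resolve_left (by norm_num)
  obtain ⟨s, t, hst, hst0⟩ := exists_neutral hβs hβφ hA hsum hne
  refine ⟨s • a + t • b', hst, ?_, hst0⟩
  rw [Matrix.mulVec_add, Matrix.mulVec_smul, Matrix.mulVec_smul, hCa, hCb',
    rm_add α (s • a) (t • b'), rm_smul α s a, rm_smul α t b']

lemma ss_step (hA : IsUnit (A ℓ)) (hℓ : 0 < ℓ) (hb : BoundedSystem ℓ A) {α : ℍ[ℝ]}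
    (hα : star α = -α) {ω : ℝ} (hα2 : α * α = ((-(ω ^ 2) : ℝ) : ℍ[ℝ]))
    {z m : Fin ℓ × Fin n → ℍ[ℝ]}
    (hm : m = companion ℓ A *ᵥ (companion ℓ A *ᵥ z) + (ω ^ 2) • z)
    (hm0 : companion ℓ A *ᵥ (companion ℓ A *ᵥ m) + (ω ^ 2) • m = 0) :
    companion ℓ A *ᵥ m + rm α m = 0 := by
  have hαre : α.re = 0 := Quaternion.star_eq_neg.mp hα
  set C := companion ℓ A with hC
  have hm0' : C *ᵥ (C *ᵥ m) = -((ω ^ 2) • m) := eq_neg_of_add_eq_zero_left hm0
  refine semisimple hA hℓ hb hαre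
    (x := C *ᵥ (C *ᵥ z) + (2 : ℝ) • rm α (C *ᵥ z) - (ω ^ 2) • z) ?_ ?_
  · have h1 : C *ᵥ (C *ᵥ (C *ᵥ z) + (2 : ℝ) • rm α (C *ᵥ z) - (ω ^ 2) • z) =
        rm α (C *ᵥ (C *ᵥ z) + (2 : ℝ) • rm α (C *ᵥ z) - (ω ^ 2) • z) +
          (C *ᵥ m + rm α m) := by
      rw [hm]
      simp only [Matrix.mulVec_add, Matrix.mulVec_sub, Matrix.mulVec_smul, mulVec_rm, rm_add,
        rm_sub, rm_smul, rm_rm, hα2, rm_real]
      module
    exact h1
  · have h2 : C *ᵥ (C *ᵥ m + rm α m) = rm α (C *ᵥ m + rm α m) := by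
      simp only [Matrix.mulVec_add, mulVec_rm, rm_add, rm_rm, hα2, rm_real, hm0']
      module
    exact h2

lemma ss_nonreal (hA : IsUnit (A ℓ)) (hℓ : 0 < ℓ) (hb : BoundedSystem ℓ A) {α : ℍ[ℝ]}
    (hα : star α = -α) (hα0 : α ≠ 0) {ω : ℝ} (hα2 : α * α = ((-(ω ^ 2) : ℝ) : ℍ[ℝ]))
    {z m : Fin ℓ × Fin n → ℍ[ℝ]}
    (hm : m = companion ℓ A *ᵥ (companion ℓ A *ᵥ z) + (ω ^ 2) • z)
    (hm0 : companion ℓ A *ᵥ (companion ℓ A *ᵥ m) + (ω ^ 2) • m = 0) : m = 0 := by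
  have h1 := ss_step hA hℓ hb hα hα2 hm hm0
  have h2 := ss_step hA hℓ hb (α := -α) (by rw [star_neg, hα]) (by rw [neg_mul_neg, hα2]) hm hm0
  rw [rm_neg_left] at h2
  apply rm_injective hα0
  have h3 : (2 : ℝ) • rm α m = (companion ℓ A *ᵥ m + rm α m) - (companion ℓ A *ᵥ m + -rm α m) := by
    module
  rw [h1, h2, sub_zero] at h3
  exact (smul_eq_zero.mp h3).resolve_left (by norm_num)

lemma ss_zero (hA : IsUnit (A ℓ)) (hℓ : 0 < ℓ) (hb : BoundedSystem ℓ A)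
    {z : Fin ℓ × Fin n → ℍ[ℝ]}
    (hz : companion ℓ A *ᵥ (companion ℓ A *ᵥ z) = 0) : companion ℓ A *ᵥ z = 0 := by
  refine semisimple hA hℓ hb (α := 0) (by simp) (x := z) ?_ ?_
  · funext p; simp
  · rw [hz]; funext p; simp

/-- The root subspaces of the companion matrix of a stably bounded system are definite. -/
theorem root_definite (hφ : NonstandardInvolution φ) (hℓ : 2 ≤ ℓ) (hA : HypB φ ℓ A)
    (hs : StablyBounded φ ℓ A) {α : ℍ[ℝ]} (hα : IsEigenvalue (companion ℓ A) α) (d : ℕ) :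
    PhiDefinite φ (formG ℓ A) (rootSubspace d (companion ℓ A) α) := by
  obtain ⟨β, hβ, hβs, hβφ⟩ := hφ.exists_beta
  have hℓ0 : 0 < ℓ := by omega
  have hb := bounded_of_stably hA hs
  have hαre : α.re = 0 := by
    obtain ⟨y, hy0, hy⟩ := hα
    apply re_eq_zero hb (y := blk y 0)
    · intro h0
      exact hy0 (eq_zero_of_blk hℓ0 hy h0)
    · exact LA_of_eigen hA.1 hℓ0 hy
  have hαs : star α = -α := Quaternion.star_eq_neg.mpr hαre
  intro x hx hx0 hzero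
  have hrf : rf A β x x = 0 := by
    rw [rf_eq hβφ, hzero]; simp
  unfold rootSubspace at hx
  rw [Set.mem_ofPred_eq] at hx
  by_cases hα0 : α = 0
  · subst hα0
    have hP : ∀ z, rootPoly (companion ℓ A) 0 *ᵥ z = companion ℓ A *ᵥ z := by
      intro z
      unfold rootPoly
      rw [if_pos (by simp)]
      simp
    have h1 : rootPoly (companion ℓ A) 0 *ᵥ x = 0 := by
      refine ker_pow_of_semisimple ?_ d hx
      intro z hz
      rw [hP, hP] at hz
      rw [hP]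
      exact ss_zero hA.1 hℓ0 hb hz
    rw [hP] at h1
    exact hx0 (not_neutral_zero hφ hβ hβs hβφ hℓ hA hs h1 hrf)
  · set ω := ‖α‖ with hωdef
    have hω : 0 < ω := norm_pos_iff.mpr hα0
    have hα2 : α * α = ((-(ω ^ 2) : ℝ) : ℍ[ℝ]) := by
      have h1 := Quaternion.self_mul_star α
      rw [hαs, mul_neg, Quaternion.normSq_eq_norm_mul_self] at h1
      rw [← neg_neg (α * α), h1, ← Quaternion.coe_neg, ← sq]
    set ι := ω⁻¹ • α with hιdef
    have hωι : ω • ι = α := by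
      rw [hιdef, smul_smul, mul_inv_cancel₀ hω.ne', one_smul]
    have hι : star ι = -ι := by rw [hιdef, Quaternion.star_smul, hαs, smul_neg]
    have hι2 : ι * ι = -1 := by
      rw [hιdef, smul_mul_smul_comm, hα2, ← Quaternion.coe_mul_eq_smul, ← Quaternion.coe_mul]
      have : ω⁻¹ * ω⁻¹ * -(ω ^ 2) = -1 := by field_simp
      rw [this]; simp
    have hP : ∀ z, rootPoly (companion ℓ A) α *ᵥ z =
        companion ℓ A *ᵥ (companion ℓ A *ᵥ z) + (ω ^ 2) • z := by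
      intro z
      have hne : ¬ (α = (α.re : ℍ[ℝ])) := by
        rw [hαre]; simpa using hα0
      unfold rootPoly
      rw [if_neg hne, hαre, sq, Matrix.add_mulVec, Matrix.sub_mulVec, Matrix.mulVec_mulVec,
        Matrix.smul_mulVec _ (1 : Matrix (Fin ℓ × Fin n) (Fin ℓ × Fin n) ℍ[ℝ]) z,
        Matrix.one_mulVec, mul_zero, zero_smul, Matrix.zero_mulVec, sub_zero]
    have h1 : rootPoly (companion ℓ A) α *ᵥ x = 0 := by
      refine ker_pow_of_semisimple ?_ d hx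
      intro z hz
      rw [hP] at hz
      exact ss_nonreal hA.1 hℓ0 hb hαs hα0 hα2 (hP z) hz
    rw [hP] at h1
    obtain ⟨y, hy0, hy, hyrf⟩ := neutral_of_ker hβs hβφ hA hℓ0 hι2 hι hω h1 hx0 hrf
    exact hy0 (not_neutral hφ hβ hβs hβφ hℓ hA hs hι2 hι hω hy hyrf)

end Pool.Agent.W_MP_87a692_al
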